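import Pool.Agent.Lib.MP_6bc78b_nt.GP.H33.Farb
import Pool.Agent.Lib.MP_6bc78b_nt.GP.H43.Defs10t

/-! Project GP10, row FART (after helper33's row FARB): the far zeros in mean, `B` of length
`T^(1/100)`. -/

set_option autoImplicit false

open Complex Filter Topology MeasureTheory ArithmeticFunction Set
open scoped ENNReal

namespace Pool.Agent.Lib.MP_6bc78b_nt.GP.H94F

open Pool.Agent.Lib.MP_6bc78b_nt Pool.Agent.Lib.MP_6bc78b_nt.MS Pool.Agent.Lib.MP_6bc78b_nt.MS.P1
open Pool.Agent.Lib.MP_6bc78b_nt.GP.G7 Pool.Agent.Lib.MP_6bc78b_nt.GP.G10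
open Pool.Agent.Lib.MP_6bc78b_nt.GP.H33F

/-- Row FART. -/
theorem fart : FARTStatement := by
  intro _ lam hlam
  obtain ⟨C, T₁, hC, hT₁, hz⟩ := zb H91E.cel (H97.mom6 H64.zms) G7.mvtx
  obtain ⟨-, -, -, -, -, hfin, -⟩ := MS.P4.H30.zfac
  have hlog : Tendsto Real.log atTop atTop := Real.tendsto_log_atTop
  have hll : Tendsto (fun T : ℝ => Real.log (Real.log T)) atTop atTop := hlog.comp hlog
  -- numbers
  obtain ⟨T₂, h2⟩ := eventually_atTop.1
    ((hlog.eventually_ge_atTop (C * 2 * (2 * lam) * 2)).and (hll.eventually_ge_atTop 1))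
  refine ⟨max T₁ T₂, lt_max_of_lt_left hT₁, fun T S β hT hMol => ?_⟩
  have hTT₁ : T₁ ≤ T := (le_max_left _ _).trans hT
  have hTT₂ : T₂ ≤ T := (le_max_right _ _).trans hT
  have hT10 : 10 < T := lt_of_lt_of_le hT₁ hTT₁
  obtain ⟨k2, k3⟩ := h2 T hTT₂
  have hL0 : 0 < Real.log T := Real.log_pos (by linarith)
  have hexp : Real.exp (Real.log (Real.log T)) = Real.log T := Real.exp_log hL0
  set l := Real.log (Real.log T) with hl
  set N : ℕ := ⌊T ^ (1 / 100 : ℝ)⌋₊ with hN
  have hl0 : 0 < l := by linarith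
  have hN1 : 1 ≤ N := by
    rw [hN, Nat.one_le_floor_iff]
    exact Real.one_le_rpow (by linarith) (by norm_num)
  have hNle : (N : ℝ) ≤ T ^ (1 / 100 : ℝ) := Nat.floor_le (by positivity)
  have hNT : (N : ℝ) ≤ T := hNle.trans (by
    have := Real.rpow_le_rpow_of_exponent_le (by linarith : 1 ≤ T)
      (by norm_num : (1 / 100 : ℝ) ≤ 1)
    rwa [Real.rpow_one] at this)
  have hlogN : Real.log N ≤ Real.log T :=
    Real.log_le_log (by exact_mod_cast hN1) hNT
  have hSN : ∀ m ∈ S, m ≤ N := fun m hm => Nat.le_floor (hMol.le m hm)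
  have hZ : {γ : ℝ | T / 2 < γ ∧ γ < 4 * T ∧ riemannZeta (1 / 2 + γ * I) = 0}.Finite :=
    (hfin (4 * T)).subset fun γ hγ => ⟨by linarith [hγ.1], hγ.2.1.le, hγ.2.2⟩
  set F : Finset ℝ := hZ.toFinset with hF
  have hFm : ∀ γ, γ ∈ F ↔ (T / 2 < γ ∧ γ < 4 * T ∧ riemannZeta (1 / 2 + γ * I) = 0) := by
    intro γ
    rw [hF, Set.Finite.mem_toFinset]
    rfl
  set a : ℝ → ℝ := fun γ => ‖deriv riemannZeta (1 / 2 + γ * I)‖ * ‖pB S β (1 / 2 + γ * I)‖ with ha
  set ψ : ℝ → ℝ := fun x => Real.exp (-((|x| - lam / 2) ^ 2 / (2 * (lam / (10 * Real.sqrt l)) ^ 2)))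
    with hψ
  have hSFB : ∀ t, SFB T lam S β t = ∑ γ ∈ F with lam ≤ |γ - t|, a γ * ψ (γ - t) := by
    intro t
    unfold SFB
    have hset : {γ : ℝ | (T / 2 < γ ∧ γ < 4 * T ∧ riemannZeta (1 / 2 + γ * I) = 0) ∧
        lam ≤ |γ - t|} = ((F.filter fun γ => lam ≤ |γ - t| : Finset ℝ) : Set ℝ) := by
      ext γ
      rw [Finset.mem_coe, Finset.mem_filter, hFm]
      rfl
    rw [hset, finsum_mem_coe_finset]
    rfl
  have hmain := farmean F a (fun γ => by positivity) ψ (by fun_prop) (fun x => (Real.exp_pos _).le)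
    (lam := lam) (κ := 2 * lam * Real.exp (-(11 * l))) (by positivity)
    (psi_int k3 (by linarith)) (Icc T (2 * T))
  calc ∫⁻ t in Icc T (2 * T), ENNReal.ofReal (SFB T lam S β t) =
      ∫⁻ t in Icc T (2 * T), ENNReal.ofReal (∑ γ ∈ F with lam ≤ |γ - t|, a γ * ψ (γ - t)) := by
        simp only [hSFB]
    _ ≤ ENNReal.ofReal (2 * lam * Real.exp (-(11 * l)) * ∑ γ ∈ F, a γ) := hmain
    _ ≤ ENNReal.ofReal T := by
        refine ENNReal.ofReal_le_ofReal ?_
        have h4 := hz T hTT₁ N (fun n => if n ∈ S then (β n : ℂ) else 0) hN1 hNT F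
          (fun γ hγ => (hFm γ).1 hγ)
        have h5 : ∑ γ ∈ F, a γ ≤ C * T * Real.log T ^ 3 * (1 + Real.log T) * 2 := by
          have h6 : ∑ γ ∈ F, a γ = ∑ γ ∈ F, ‖deriv riemannZeta (1 / 2 + γ * I)‖ *
              ‖BP (fun n => if n ∈ S then (β n : ℂ) else 0) N γ‖ := by
            refine Finset.sum_congr rfl fun γ _ => ?_
            rw [ha, ← pB_eq S β N hMol.one_le hSN γ]
          rw [h6]
          refine h4.trans ?_
          have h7 : Real.sqrt (∑ n ∈ Finset.Icc 1 N,
              ‖(if n ∈ S then (β n : ℂ) else 0)‖ ^ 2 / (n : ℝ)) ≤ 2 := by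
            rw [Real.sqrt_le_left (by norm_num)]
            exact (mol_sq hMol N hSN).trans (by norm_num)
          have h8 : 0 ≤ Real.log N := Real.log_nonneg (by exact_mod_cast hN1)
          have h9 : 0 ≤ Real.log T := hL0.le
          gcongr
        have hexpn : Real.exp (-(11 * l)) * Real.log T ^ 11 = 1 := by
          rw [← hexp, ← Real.exp_nat_mul, ← Real.exp_add]
          push_cast
          rw [neg_add_cancel, Real.exp_zero]
        have hL1 : 1 ≤ Real.log T := by
          rw [← hexp]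
          exact Real.one_le_exp hl0.le
        have h10 : 0 < Real.exp (-(11 * l)) := Real.exp_pos _
        have h11 : C * 2 * (2 * lam) * (1 + Real.log T) ≤ Real.log T ^ 2 := by
          calc C * 2 * (2 * lam) * (1 + Real.log T) ≤ C * 2 * (2 * lam) * (2 * Real.log T) :=
                mul_le_mul_of_nonneg_left (by linarith) (by positivity)
            _ = (C * 2 * (2 * lam) * 2) * Real.log T := by ring
            _ ≤ Real.log T * Real.log T := mul_le_mul_of_nonneg_right k2 hL0.le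
            _ = Real.log T ^ 2 := by ring
        calc 2 * lam * Real.exp (-(11 * l)) * ∑ γ ∈ F, a γ ≤
            2 * lam * Real.exp (-(11 * l)) * (C * T * Real.log T ^ 3 * (1 + Real.log T) * 2) :=
              mul_le_mul_of_nonneg_left h5 (by positivity)
          _ = (C * 2 * (2 * lam) * (1 + Real.log T)) *
                (Real.exp (-(11 * l)) * Real.log T ^ 3 * T) := by
              ring
          _ ≤ Real.log T ^ 2 * (Real.exp (-(11 * l)) * Real.log T ^ 3 * T) :=
              mul_le_mul_of_nonneg_right h11 (by positivity)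
          _ = Real.exp (-(11 * l)) * Real.log T ^ 5 * T := by ring
          _ ≤ Real.exp (-(11 * l)) * Real.log T ^ 11 * T := by
              have : Real.log T ^ 5 ≤ Real.log T ^ 11 := pow_le_pow_right₀ hL1 (by norm_num)
              gcongr
          _ = T := by rw [hexpn, one_mul]

end Pool.Agent.Lib.MP_6bc78b_nt.GP.H94F
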