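import Pool.Agent.Lib.MP_6bc78b_nt.GP.H35.Fin10
import Pool.Agent.Lib.MP_6bc78b_nt.GP.H43.Defs10t

/-! Project GP10, module FIN10T (after helper35's Fin10m): all lengths at once, very large
derivatives (`log T · exp √(log log T · log log log T)`), everything depends on `ε` only. -/

set_option autoImplicit false

open Complex Filter Topology MeasureTheory ArithmeticFunction Set
open scoped ENNReal

namespace Pool.Agent.Lib.MP_6bc78b_nt.GP.H94T

open Pool.Agent.Lib.MP_6bc78b_nt Pool.Agent.Lib.MP_6bc78b_nt.MS Pool.Agent.Lib.MP_6bc78b_nt.MS.P1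
open Pool.Agent.Lib.MP_6bc78b_nt.GP.G10 Pool.Agent.Lib.MP_6bc78b_nt.GP.H35F

/-- `log log log T` is large. -/
lemma ev_log3 (b : ℝ) : ∀ᶠ T : ℝ in atTop, b ≤ Real.log (Real.log (Real.log T)) :=
  ((Real.tendsto_log_atTop.comp Real.tendsto_log_atTop).comp
    Real.tendsto_log_atTop).eventually_ge_atTop b

/-- The threshold at `X ≥ √T`. -/
lemma thr {T X : ℝ} (hT : 10 ≤ T) (h3 : 16 ≤ Real.log (Real.log (Real.log T)))
    (hX : Real.log T / 2 ≤ Real.log X) :
    Real.log T * Real.exp (Real.sqrt (Real.log (Real.log T) *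
      Real.log (Real.log (Real.log T)))) ≤
    Real.log X * Real.exp (2 * Real.sqrt (Real.log (Real.log X) *
      Real.log (Real.log (Real.log X)))) := by
  have hL1 : 1 < Real.log T := by
    rw [Real.lt_log_iff_exp_lt (by linarith)]
    have := Real.exp_one_lt_d9
    linarith
  set L := Real.log T with hL
  set l := Real.log L with hl
  set r := Real.log l with hr
  have hL0 : 0 < L := by linarith
  have hlp : 0 < l := Real.log_pos hL1
  have h2 : Real.log 2 < 0.7 := by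
    have := Real.log_two_lt_d9
    linarith
  have hLX : 0 < Real.log X := by linarith
  have hl4 : 16 ≤ l := by
    have h5 : r ≤ l - 1 := Real.log_le_sub_one_of_pos hlp
    linarith
  have e1 : l - Real.log 2 ≤ Real.log (Real.log X) := by
    rw [hl, ← Real.log_div hL0.ne' (by norm_num)]
    exact Real.log_le_log (by positivity) hX
  have e2 : l / 2 ≤ Real.log (Real.log X) := by linarith
  have e3 : r - Real.log 2 ≤ Real.log (Real.log (Real.log X)) := by
    rw [hr, ← Real.log_div hlp.ne' (by norm_num)]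
    exact Real.log_le_log (by positivity) e2
  have e4 : 3 / 4 * r ≤ Real.log (Real.log (Real.log X)) := by linarith
  have e4' : 3 / 4 * l ≤ Real.log (Real.log X) := by linarith
  have e4'' : 3 / 4 * l * (3 / 4 * r) ≤
      Real.log (Real.log X) * Real.log (Real.log (Real.log X)) :=
    mul_le_mul e4' e4 (by positivity) (by linarith)
  obtain ⟨s, hs⟩ : ∃ s : ℝ, s = Real.sqrt (l * r) := ⟨_, rfl⟩
  have hlr : 16 * 16 ≤ l * r := mul_le_mul hl4 h3 (by norm_num) hlp.le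
  have hs0 : 4 ≤ s := by
    rw [hs]
    exact Real.le_sqrt_of_sq_le (by linarith)
  have hss : s ^ 2 = l * r := by
    rw [hs]
    exact Real.sq_sqrt (by linarith)
  have e5 : (s + 1) / 2 ≤
      Real.sqrt (Real.log (Real.log X) * Real.log (Real.log (Real.log X))) := by
    refine Real.le_sqrt_of_sq_le (le_trans ?_ e4'')
    have e9 : 3 / 4 * l * (3 / 4 * r) = 9 / 16 * s ^ 2 := by
      rw [hss]
      ring
    rw [e9]
    nlinarith
  rw [← hs]
  have e6 : L / 2 * Real.exp (s + 1) ≤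
      Real.log X * Real.exp (2 * Real.sqrt (Real.log (Real.log X) *
        Real.log (Real.log (Real.log X)))) :=
    mul_le_mul hX (Real.exp_le_exp.2 (by linarith)) (Real.exp_pos _).le hLX.le
  refine le_trans ?_ e6
  rw [Real.exp_add]
  have e7 : (2 : ℝ) ≤ Real.exp 1 := by
    have := Real.add_one_le_exp (1 : ℝ)
    linarith
  have e8 : L * Real.exp s * 2 ≤ L * Real.exp s * Real.exp 1 :=
    mul_le_mul_of_nonneg_left e7 (mul_pos hL0 (Real.exp_pos _)).le
  linarith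

/-- **FIN10T.** -/
theorem fin10t (h9 : CHB10TStatement) : Count10TStatement := by
  intro hRH ε hε
  obtain ⟨lam, T₇, hlam, hT₇, g7⟩ := h9 hRH (ε / 80) (by positivity)
  obtain ⟨T₈, hT₈⟩ := eventually_atTop.1 (ev_log3 16)
  obtain ⟨h₀, hh₀⟩ : ∃ h₀ : ℝ, h₀ = max (8 * lam) (max (16 * T₇ / ε)
    (max ((16 / ε) ^ 2) (max T₈ 10))) := ⟨_, rfl⟩
  have hh₁ : 8 * lam ≤ h₀ := hh₀ ▸ le_max_left _ _
  have r0 : max (16 * T₇ / ε) (max ((16 / ε) ^ 2) (max T₈ 10)) ≤ h₀ := hh₀ ▸ le_max_right _ _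
  have hpos : 0 < h₀ := lt_of_lt_of_le (by positivity) hh₁
  refine ⟨h₀, hpos, fun T => ?_⟩
  rcases lt_or_ge T h₀ with hTh | hTh
  · have hemp : {t : ℝ | 0 ≤ t ∧ t ≤ T ∧ ∃ h : ℝ, h₀ ≤ h ∧ h ≤ T ∧
        (({γ : ℝ | t < γ ∧ γ < t + h ∧ zeroMult γ = 1 ∧
          Real.log T * Real.exp (Real.sqrt (Real.log (Real.log T) *
            Real.log (Real.log (Real.log T)))) ≤ |deriv hardyZ γ|}.ncard : ℕ) : ℝ) ≤ h / h₀} = ∅ := by
      ext t
      simp only [mem_setOf_eq, mem_empty_iff_false, iff_false]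
      rintro ⟨-, -, h, k1, k2, -⟩
      linarith
    rw [hemp, measure_empty]
    exact zero_le
  have hT := r0.trans hTh
  have hh₂ : 16 * T₇ / ε ≤ T := (le_max_left _ _).trans hT
  have r1 := (le_max_right _ _).trans hT
  have hTε2 : (16 / ε) ^ 2 ≤ T := (le_max_left _ _).trans r1
  have r2 := (le_max_right _ _).trans r1
  have hl3 := hT₈ T ((le_max_left _ _).trans r2)
  have hT10 : 10 ≤ T := (le_max_right _ _).trans r2
  clear r1 r2
  have hTε : 16 * T₇ ≤ T * ε := by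
    rwa [div_le_iff₀ hε] at hh₂
  have hT0 : 0 < T := by linarith
  obtain ⟨L, hLd⟩ : ∃ L : ℝ, L = Real.log T := ⟨_, rfl⟩
  obtain ⟨R, hRd⟩ : ∃ R : ℝ, R = Real.log T * Real.exp (Real.sqrt (Real.log (Real.log T) *
    Real.log (Real.log (Real.log T)))) := ⟨_, rfl⟩
  rw [← hRd]
  -- the bad centres
  obtain ⟨S, hS⟩ : ∃ S : Set ℝ, S = {s : ℝ | ∀ γ : ℝ, |γ - s| < lam → mz γ = 1 →
    ‖deriv riemannZeta (1 / 2 + γ * I)‖ < R} := ⟨_, rfl⟩
  obtain ⟨m, hm⟩ : ∃ m : ℝ, m = ε * T / 8 := ⟨_, rfl⟩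
  have hm0 : 0 < m := by rw [hm]; positivity
  have hblock : ∀ X : ℝ, m / 2 ≤ X → 2 * X ≤ 2 * T →
      volume (S ∩ Set.Icc X (2 * X)) ≤ ENNReal.ofReal (ε / 80 * X) := by
    intro X hX hXT
    have hX7 : T₇ ≤ X := by
      refine le_trans ?_ hX
      rw [hm]
      linarith
    have hlX : Real.log T / 2 ≤ Real.log X := by
      have e1 : Real.log T / 2 = Real.log (Real.sqrt T) := by rw [Real.log_sqrt hT0.le]
      rw [e1]
      refine Real.log_le_log (Real.sqrt_pos.2 hT0) ?_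
      refine le_trans ?_ hX
      rw [hm]
      have hs : 16 / ε ≤ Real.sqrt T := Real.le_sqrt_of_sq_le hTε2
      rw [div_le_iff₀ hε] at hs
      have hss : Real.sqrt T * Real.sqrt T = T := Real.mul_self_sqrt hT0.le
      have hs0 : 0 < Real.sqrt T := Real.sqrt_pos.2 hT0
      have e2 : Real.sqrt T * 16 ≤ Real.sqrt T * (Real.sqrt T * ε) :=
        mul_le_mul_of_nonneg_left hs hs0.le
      have e3 : Real.sqrt T * (Real.sqrt T * ε) = T * ε := by rw [← mul_assoc, hss]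
      linarith
    refine (measure_mono ?_).trans (g7 X hX7)
    rintro s ⟨hs, hs1, hs2⟩
    rw [hS] at hs
    refine ⟨hs1, hs2, fun γ k1 k2 => lt_of_lt_of_le (hs γ k1 k2) ?_⟩
    rw [hRd]
    exact thr hT10 hl3 hlX
  obtain ⟨n, hn⟩ : ∃ n : ℕ, 2 * T < 2 ^ n * m := by
    obtain ⟨n, hn⟩ := pow_unbounded_of_one_lt (2 * T / m) (by norm_num : (1 : ℝ) < 2)
    refine ⟨n, ?_⟩
    rwa [div_lt_iff₀ hm0] at hn
  have hvol := H27F.halve (by positivity : 0 ≤ ε / 80) hm0 hblock n (2 * T)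
    (by positivity) le_rfl hn
  obtain ⟨U, hUd⟩ : ∃ U : Set ℝ, U = toMeasurable volume (S ∩ Set.Icc m (2 * T)) := ⟨_, rfl⟩
  have hUm : MeasurableSet U := hUd ▸ measurableSet_toMeasurable _ _
  have hUv : volume U ≤ ENNReal.ofReal (ε / 80 * (2 * T)) := by
    rw [hUd, measure_toMeasurable]
    exact hvol
  have hSU : S ∩ Set.Icc m (2 * T) ⊆ U := hUd ▸ subset_toMeasurable _ _
  have hsub : {t : ℝ | 0 ≤ t ∧ t ≤ T ∧ ∃ h : ℝ, h₀ ≤ h ∧ h ≤ T ∧
        (({γ : ℝ | t < γ ∧ γ < t + h ∧ zeroMult γ = 1 ∧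
          R ≤ |deriv hardyZ γ|}.ncard : ℕ) : ℝ) ≤ h / h₀} ⊆
      Set.Icc 0 m ∪ {t : ℝ | ∃ h : ℝ, 0 < h ∧ h ≤ T ∧
        ENNReal.ofReal (h / 4) ≤ volume (U ∩ Ioo t (t + h))} := by
    rintro t ⟨ht0, ht1, h, hh1, hh2, ht2⟩
    by_cases htm : t ≤ m
    · exact Or.inl ⟨ht0, htm⟩
    push Not at htm
    have hh0 : 0 < h := by linarith
    refine Or.inr ⟨h, hh0, hh2, ?_⟩
    have hfin : {γ : ℝ | t < γ ∧ γ < t + h ∧ zeroMult γ = 1 ∧
        R ≤ |deriv hardyZ γ|}.Finite :=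
      (H27F.win_fin t (t + h)).subset fun γ hγ => ⟨hγ.1, hγ.2.1, hγ.2.2.1⟩
    obtain ⟨F, hF⟩ : ∃ F : Finset ℝ, F = hfin.toFinset := ⟨_, rfl⟩
    have hFm : ∀ γ : ℝ, γ ∈ F ↔ t < γ ∧ γ < t + h ∧ zeroMult γ = 1 ∧
        R ≤ |deriv hardyZ γ| := fun γ => by
      rw [hF, Set.Finite.mem_toFinset]
      rfl
    have hcard : (F.card : ℝ) ≤ h / h₀ := by
      rw [hF, ← Set.ncard_eq_toFinset_card _ hfin]
      exact ht2
    have hcard2 : 8 * lam * (F.card : ℝ) ≤ h := by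
      rw [le_div_iff₀ hpos] at hcard
      refine le_trans ?_ hcard
      rw [mul_comm]
      exact mul_le_mul_of_nonneg_left hh₁ (Nat.cast_nonneg _)
    refine many10 hlam (by linarith) hcard2 fun s hs hsU => ?_
    have hsS : s ∉ S := fun hsS => hsU (hSU ⟨hsS, by linarith [hs.1], by linarith [hs.2]⟩)
    rw [hS] at hsS
    have k1 : ∃ γ : ℝ, |γ - s| < lam ∧ mz γ = 1 ∧
        R ≤ ‖deriv riemannZeta (1 / 2 + γ * I)‖ := by
      by_contra hcon
      push Not at hcon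
      exact hsS hcon
    obtain ⟨γ, k2, k3, k5⟩ := k1
    have k4 := abs_lt.1 k2
    have k7 : zeroMult γ = 1 := by rw [← MS.P4.H30.mz_eq]; exact k3
    refine ⟨γ, (hFm γ).2 ⟨by linarith [hs.1], by linarith [hs.2], k7, ?_⟩, k2⟩
    rw [dhz9 (H27F.zero_of_zeroMult k7)]
    exact k5
  refine (measure_mono hsub).trans ((measure_union_le _ _).trans ?_)
  rw [Real.volume_Icc, sub_zero]
  refine (add_le_add le_rfl ((winall hUm T).trans (mul_le_mul_right hUv 20))).trans ?_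
  have e4 : (20 : ℝ≥0∞) = ENNReal.ofReal 20 := by norm_num
  rw [e4, ← ENNReal.ofReal_mul (by norm_num), ← ENNReal.ofReal_add hm0.le (by positivity)]
  refine ENNReal.ofReal_le_ofReal ?_
  rw [hm]
  have := mul_pos hε hT0
  nlinarith

end Pool.Agent.Lib.MP_6bc78b_nt.GP.H94T
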