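import Pool.Agent.Lib.MP_6bc78b_nt.GP.H94.ZposB

/-! Project GP11, row ZPOS: the nonnegative frequencies. -/

set_option autoImplicit false

open Complex Filter Topology MeasureTheory ArithmeticFunction Set
open scoped ENNReal ComplexConjugate

namespace Pool.Agent.Lib.MP_6bc78b_nt.GP.H94Z

open Pool.Agent.Lib.MP_6bc78b_nt.GP Pool.Agent.Lib.MP_6bc78b_nt.GP.G11
open Pool.Agent.Lib.MP_6bc78b_nt.GP.G11Z

lemma wt_le {T c x : ℝ} (hT : 10 < T) (hx : 0 ≤ x) (hc : 1 ≤ c) (h : x ≤ c * Real.log T) :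
    wt T x ≤ 2 * c ^ 4 * Real.log T ^ 3 := by
  have hL : 0 < Real.log T := Real.log_pos (by linarith)
  have h2 : x ^ 2 ≤ (c * Real.log T) ^ 2 := pow_le_pow_left₀ hx h 2
  have h4 : x ^ 4 ≤ (c * Real.log T) ^ 4 := pow_le_pow_left₀ hx h 4
  have hc2 : c ^ 2 ≤ c ^ 4 := pow_le_pow_right₀ hc (by norm_num)
  unfold wt
  calc Real.log T * x ^ 2 + x ^ 4 / Real.log T ≤
      Real.log T * (c * Real.log T) ^ 2 + (c * Real.log T) ^ 4 / Real.log T := by
        gcongr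
    _ = (c ^ 2 + c ^ 4) * Real.log T ^ 3 := by
        field_simp
    _ ≤ (c ^ 4 + c ^ 4) * Real.log T ^ 3 := by gcongr
    _ = _ := by ring

lemma geo_exp (K : ℕ) : ∑ k ∈ Finset.range K, Real.exp (k : ℝ) ≤ Real.exp K := by
  induction K with
  | zero => simp
  | succ K ih =>
    rw [Finset.sum_range_succ]
    have h1 : Real.exp ((K + 1 : ℕ) : ℝ) = Real.exp K * Real.exp 1 := by
      push_cast
      rw [Real.exp_add]
    have h2 : (2 : ℝ) ≤ Real.exp 1 := by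
      have := Real.add_one_le_exp (1 : ℝ)
      linarith
    rw [h1]
    have h3 := mul_le_mul_of_nonneg_left h2 (Real.exp_pos (K : ℝ)).le
    linarith

/-- `(∑ |a|)² ≤ N² R(a)`. -/
lemma sum_sq_le {S : Finset ℕ} (a : ℕ → ℂ) {N : ℝ} (hN : 0 ≤ N)
    (hS : ∀ m ∈ S, 1 ≤ m ∧ (m : ℝ) ≤ N) : (∑ m ∈ S, ‖a m‖) ^ 2 ≤ N ^ 2 * Rf S a := by
  unfold Rf
  rw [sq (∑ m ∈ S, ‖a m‖), Finset.sum_mul_sum, Finset.mul_sum]
  refine Finset.sum_le_sum fun m hm => ?_
  rw [Finset.mul_sum]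
  refine Finset.sum_le_sum fun m' hm' => ?_
  have hl : (0 : ℝ) < Nat.lcm m m' := by
    exact_mod_cast Nat.lcm_pos (hS m hm).1 (hS m' hm').1
  have hle : (Nat.lcm m m' : ℝ) ≤ m * m' := by
    exact_mod_cast Nat.le_of_dvd (Nat.mul_pos (hS m hm).1 (hS m' hm').1) (Nat.lcm_dvd_mul m m')
  have h2 : (m : ℝ) * m' ≤ N * N := mul_le_mul (hS m hm).2 (hS m' hm').2 (Nat.cast_nonneg _) hN
  rw [mul_div_assoc', le_div_iff₀ hl, mul_comm (N ^ 2)]
  refine mul_le_mul_of_nonneg_left ?_ (by positivity)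
  rw [sq]
  exact hle.trans h2

/-- The numbers. -/
lemma total_le {T L l Q R : ℝ} (hT : 10 < T) (hL : L = Real.log T) (hL3 : 3 ≤ L)
    (hl1 : 1 ≤ l) (hl6 : 3 * l ^ 6 ≤ L) (hQ : 0 ≤ Q) (hR : 0 ≤ R) (K₀ K₁ : ℕ)
    (hK₀ : K₀ = ⌊L - 3 * l ^ 6⌋₊) (hK₁ : K₁ = K₀ + (⌈3 * l ^ 6⌉₊ + 1)) (E : ℕ → ℝ)
    (hE : ∀ k : ℕ, E k = if k < K₀ then Q / (2 * (5 * Real.exp k / T)) + Real.exp (2 * l ^ 6) * R
      else R / (2 * (5 * Real.exp k / T)) * Real.exp (-(5 * Real.exp k / T))) :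
    ∑' k : ℕ, ENNReal.ofReal (140 * wt T (k + 1) * (E k * Real.exp k / T) +
      R * Real.exp (-k) * wt T (k + 1) / T) ≤
      ENNReal.ofReal (120000 * (L ^ 4 * Q + L ^ 3 * l ^ 10 * R)) := by
  have hTp : 0 < T := by linarith
  have hL0 : 0 < L := by linarith
  have hl0 : 0 < l := by linarith
  have hexpL : Real.exp L = T := by rw [hL, Real.exp_log hTp]
  have hLT : L ≤ T := by
    rw [hL]
    exact (Real.log_le_sub_one_of_pos hTp).trans (by linarith)
  have hK0a : (K₀ : ℝ) ≤ L - 3 * l ^ 6 := by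
    rw [hK₀]
    exact Nat.floor_le (by linarith)
  have hK0b : L - 3 * l ^ 6 < K₀ + 1 := by
    rw [hK₀]
    exact Nat.lt_floor_add_one _
  have hc1 : 3 * l ^ 6 ≤ (⌈3 * l ^ 6⌉₊ : ℝ) := Nat.le_ceil _
  have hc2 : (⌈3 * l ^ 6⌉₊ : ℝ) ≤ 3 * l ^ 6 + 1 := (Nat.ceil_lt_add_one (by positivity)).le
  have hK1 : (K₁ : ℝ) = K₀ + (⌈3 * l ^ 6⌉₊ + 1) := by
    rw [hK₁]
    push_cast
    ring
  have hK1a : (K₁ : ℝ) ≤ L + 2 := by linarith
  have hK1b : L ≤ (K₁ : ℝ) := by linarith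
  have hK01 : K₀ ≤ K₁ := by rw [hK₁]; exact Nat.le_add_right _ _
  have hl6p : 0 < l ^ 6 := by positivity
  have hl610 : l ^ 6 ≤ l ^ 10 := pow_le_pow_right₀ hl1 (by norm_num)
  have hl10 : 1 ≤ l ^ 10 := one_le_pow₀ hl1
  obtain ⟨b, hb⟩ : ∃ b : ℕ → ℝ, b = fun k : ℕ => 140 * wt T (k + 1) * (E k * Real.exp k / T) +
      R * Real.exp (-k) * wt T (k + 1) / T := ⟨_, rfl⟩
  have hE1 : ∀ k : ℕ, k < K₀ → E k * Real.exp k / T =
      Q / 10 + Real.exp (2 * l ^ 6) * R * Real.exp k / T := by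
    intro k hk
    have := Real.exp_pos (k : ℝ)
    rw [hE k, if_pos hk]
    field_simp
    ring
  have hE2 : ∀ k : ℕ, ¬ k < K₀ → E k * Real.exp k / T =
      R / 10 * Real.exp (-(5 * Real.exp k / T)) := by
    intro k hk
    have := Real.exp_pos (k : ℝ)
    rw [hE k, if_neg hk]
    field_simp
    ring
  have hb0 : ∀ k, 0 ≤ b k := by
    intro k
    rw [hb]
    have hw := wt_nonneg hT ((k : ℝ) + 1)
    beta_reduce
    by_cases hk : k < K₀
    · rw [hE1 k hk]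
      positivity
    · rw [hE2 k hk]
      positivity
  -- the three ranges
  have hA : ∀ k ∈ Finset.range K₀, b k ≤ (28 * L ^ 3 * Q + 2 * L ^ 3 * R / T) +
      280 * L ^ 3 * (Real.exp (2 * l ^ 6) * R / T) * Real.exp k := by
    intro k hk
    have hk1 := Finset.mem_range.1 hk
    have hk2 : (k : ℝ) + 1 ≤ K₀ := by exact_mod_cast hk1
    have hw0 := wt_nonneg hT ((k : ℝ) + 1)
    have hw : wt T ((k : ℝ) + 1) ≤ 2 * L ^ 3 := by
      have := wt_le (c := 1) hT (by positivity : (0 : ℝ) ≤ (k : ℝ) + 1) le_rfl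
        (by rw [one_mul, ← hL]; linarith)
      rw [← hL] at this
      linarith
    have he : Real.exp (-(k : ℝ)) ≤ 1 := Real.exp_le_one_iff.2 (by
      have : (0 : ℝ) ≤ k := Nat.cast_nonneg k
      linarith)
    rw [hb]
    beta_reduce
    rw [hE1 k hk1]
    calc 140 * wt T (k + 1) * (Q / 10 + Real.exp (2 * l ^ 6) * R * Real.exp k / T) +
          R * Real.exp (-k) * wt T (k + 1) / T ≤
        140 * (2 * L ^ 3) * (Q / 10 + Real.exp (2 * l ^ 6) * R * Real.exp k / T) +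
          R * 1 * (2 * L ^ 3) / T := by gcongr
      _ = _ := by ring
  have hB : ∀ k ∈ Finset.Ico K₀ K₁, b k ≤ 500 * L ^ 3 * R := by
    intro k hk
    obtain ⟨hk1, hk2⟩ := Finset.mem_Ico.1 hk
    have hk3 : (k : ℝ) + 1 ≤ K₁ := by exact_mod_cast hk2
    have hw0 := wt_nonneg hT ((k : ℝ) + 1)
    have hw : wt T ((k : ℝ) + 1) ≤ 32 * L ^ 3 := by
      have := wt_le (c := 2) hT (by positivity : (0 : ℝ) ≤ (k : ℝ) + 1) (by norm_num)
        (by rw [← hL]; linarith)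
      rw [← hL] at this
      linarith
    have he : Real.exp (-(k : ℝ)) ≤ 1 := Real.exp_le_one_iff.2 (by
      have : (0 : ℝ) ≤ k := Nat.cast_nonneg k
      linarith)
    have he2 : Real.exp (-(5 * Real.exp k / T)) ≤ 1 := Real.exp_le_one_iff.2 (by
      have : 0 ≤ 5 * Real.exp (k : ℝ) / T := by positivity
      linarith)
    rw [hb]
    beta_reduce
    rw [hE2 k (by omega)]
    have hT1 : R * 1 * (32 * L ^ 3) / T ≤ R * 1 * (32 * L ^ 3) :=
      div_le_self (by positivity) (by linarith)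
    calc 140 * wt T (k + 1) * (R / 10 * Real.exp (-(5 * Real.exp k / T))) +
          R * Real.exp (-k) * wt T (k + 1) / T ≤
        140 * (32 * L ^ 3) * (R / 10 * 1) + R * 1 * (32 * L ^ 3) / T := by gcongr
      _ ≤ 140 * (32 * L ^ 3) * (R / 10 * 1) + R * 1 * (32 * L ^ 3) := by linarith
      _ = 480 * (L ^ 3 * R) := by ring
      _ ≤ 500 * (L ^ 3 * R) := by
          have : 0 ≤ L ^ 3 * R := by positivity
          linarith
      _ = _ := by ring
  obtain ⟨r, hr⟩ : ∃ r : ℝ, r = Real.exp (-(1 / 2)) := ⟨_, rfl⟩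
  have hr0 : 0 < r := hr ▸ Real.exp_pos _
  have hr1 : r ≤ 2 / 3 := by
    have h1 : (3 / 2 : ℝ) ≤ Real.exp (1 / 2) := by
      have := Real.add_one_le_exp (1 / 2 : ℝ)
      linarith
    rw [hr, Real.exp_neg, inv_le_comm₀ (Real.exp_pos _) (by norm_num)]
    linarith
  have hC : ∀ i : ℕ, b (i + K₁) ≤ 30000 * L ^ 3 * R * r ^ i := by
    intro i
    have hri : r ^ i = Real.exp (-((i : ℝ) / 2)) := by
      rw [hr, ← Real.exp_nat_mul]
      congr 1
      ring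
    have hi0 : (0 : ℝ) ≤ i := Nat.cast_nonneg i
    have hw0 := wt_nonneg hT (((i + K₁ : ℕ) : ℝ) + 1)
    have hw : wt T (((i + K₁ : ℕ) : ℝ) + 1) ≤ 32 * (1 + i) ^ 4 * L ^ 3 := by
      have := wt_le (c := 2 * (1 + i)) hT (by positivity : (0 : ℝ) ≤ ((i + K₁ : ℕ) : ℝ) + 1)
        (by linarith) (by
          rw [← hL]
          push_cast
          nlinarith)
      rw [← hL] at this
      refine this.trans (le_of_eq ?_)
      ring
    have hk : Real.exp (i : ℝ) * T ≤ Real.exp ((i + K₁ : ℕ) : ℝ) := by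
      push_cast
      rw [Real.exp_add]
      refine mul_le_mul_of_nonneg_left ?_ (Real.exp_pos _).le
      rw [← hexpL]
      exact Real.exp_le_exp.2 hK1b
    have h1i : 1 + (i : ℝ) ≤ Real.exp i := by linarith [Real.add_one_le_exp (i : ℝ)]
    have he2 : Real.exp (-(5 * Real.exp ((i + K₁ : ℕ) : ℝ) / T)) ≤ Real.exp (-(5 * (1 + i))) := by
      refine Real.exp_le_exp.2 (neg_le_neg ?_)
      rw [le_div_iff₀ hTp]
      have h2 := mul_le_mul_of_nonneg_right h1i hTp.le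
      linarith
    have he3 : (1 + (i : ℝ)) ^ 4 * Real.exp (-(5 * (1 + i))) ≤ r ^ i := by
      have h2 : (1 + (i : ℝ)) ^ 4 ≤ Real.exp (4 * (1 + i)) := by
        have h3 : (1 + (i : ℝ)) ≤ Real.exp (1 + i) := by
          linarith [Real.add_one_le_exp (1 + (i : ℝ))]
        refine (pow_le_pow_left₀ (by positivity) h3 4).trans (le_of_eq ?_)
        rw [← Real.exp_nat_mul]
        norm_num
      calc (1 + (i : ℝ)) ^ 4 * Real.exp (-(5 * (1 + i))) ≤
          Real.exp (4 * (1 + i)) * Real.exp (-(5 * (1 + i))) :=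
            mul_le_mul_of_nonneg_right h2 (Real.exp_pos _).le
        _ = Real.exp (-(1 + i)) := by
            rw [← Real.exp_add]
            congr 1
            ring
        _ ≤ r ^ i := by
            rw [hri]
            refine Real.exp_le_exp.2 ?_
            linarith
    have he4 : (1 + (i : ℝ)) ^ 4 * Real.exp (-((i + K₁ : ℕ) : ℝ)) ≤ 768 * r ^ i := by
      have h2 : (1 + (i : ℝ)) ^ 4 ≤ 384 * Real.exp ((1 + i) / 2) := by
        have h3 := Real.pow_div_factorial_le_exp ((1 + (i : ℝ)) / 2) (by positivity) 4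
        rw [show (Nat.factorial 4 : ℝ) = 24 by norm_num [Nat.factorial], div_le_iff₀ (by norm_num)]
          at h3
        have e : ((1 + (i : ℝ)) / 2) ^ 4 = (1 + (i : ℝ)) ^ 4 / 16 := by ring
        rw [e] at h3
        linarith
      have h4 : Real.exp (1 / 2) ≤ 2 := by
        have h5 := Real.exp_one_lt_d9
        have h6 : Real.exp (1 / 2) ^ 2 = Real.exp 1 := by
          rw [← Real.exp_nat_mul]
          norm_num
        nlinarith [Real.exp_pos (1 / 2 : ℝ)]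
      calc (1 + (i : ℝ)) ^ 4 * Real.exp (-((i + K₁ : ℕ) : ℝ)) ≤
          384 * Real.exp ((1 + i) / 2) * Real.exp (-(i : ℝ)) := by
            refine mul_le_mul h2 (Real.exp_le_exp.2 ?_) (Real.exp_pos _).le (by positivity)
            push_cast
            linarith
        _ = 384 * (Real.exp (1 / 2) * r ^ i) := by
            rw [hri, mul_assoc, ← Real.exp_add, ← Real.exp_add]
            congr 2
            ring
        _ ≤ 384 * (2 * r ^ i) := by gcongr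
        _ = _ := by ring
    rw [hb]
    beta_reduce
    rw [hE2 _ (by omega)]
    have hri0 : 0 < r ^ i := by positivity
    calc 140 * wt T (((i + K₁ : ℕ) : ℝ) + 1) *
          (R / 10 * Real.exp (-(5 * Real.exp ((i + K₁ : ℕ) : ℝ) / T))) +
          R * Real.exp (-((i + K₁ : ℕ) : ℝ)) * wt T (((i + K₁ : ℕ) : ℝ) + 1) / T ≤
        140 * (32 * (1 + i) ^ 4 * L ^ 3) * (R / 10 * Real.exp (-(5 * (1 + i)))) +
          R * Real.exp (-((i + K₁ : ℕ) : ℝ)) * (32 * (1 + i) ^ 4 * L ^ 3) / T := by gcongr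
      _ ≤ 140 * (32 * (1 + i) ^ 4 * L ^ 3) * (R / 10 * Real.exp (-(5 * (1 + i)))) +
          R * Real.exp (-((i + K₁ : ℕ) : ℝ)) * (32 * (1 + i) ^ 4 * L ^ 3) :=
          add_le_add le_rfl (div_le_self (by positivity) (by linarith))
      _ = 448 * L ^ 3 * R * ((1 + (i : ℝ)) ^ 4 * Real.exp (-(5 * (1 + i)))) +
          32 * L ^ 3 * R * ((1 + (i : ℝ)) ^ 4 * Real.exp (-((i + K₁ : ℕ) : ℝ))) := by ring
      _ ≤ 448 * L ^ 3 * R * r ^ i + 32 * L ^ 3 * R * (768 * r ^ i) := by gcongr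
      _ = 25024 * (L ^ 3 * R * r ^ i) := by ring
      _ ≤ 30000 * (L ^ 3 * R * r ^ i) := by
          have : 0 ≤ L ^ 3 * R * r ^ i := by positivity
          linarith
      _ = _ := by ring
  -- the sums
  have hS1 : ∑ k ∈ Finset.range K₀, b k ≤ 28 * L ^ 4 * Q + 282 * L ^ 3 * R := by
    refine (Finset.sum_le_sum hA).trans ?_
    rw [Finset.sum_add_distrib, Finset.sum_const, Finset.card_range, nsmul_eq_mul,
      ← Finset.mul_sum]
    have h1 : (K₀ : ℝ) ≤ L := by linarith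
    have h2 : ∑ k ∈ Finset.range K₀, Real.exp (k : ℝ) ≤ T * Real.exp (-(3 * l ^ 6)) := by
      refine (geo_exp K₀).trans ?_
      rw [← hexpL, ← Real.exp_add]
      exact Real.exp_le_exp.2 (by linarith)
    have h3 : Real.exp (2 * l ^ 6) * Real.exp (-(3 * l ^ 6)) ≤ 1 := by
      rw [← Real.exp_add, Real.exp_le_one_iff]
      linarith
    have h4 : L / T ≤ 1 := by rwa [div_le_one hTp]
    calc (K₀ : ℝ) * (28 * L ^ 3 * Q + 2 * L ^ 3 * R / T) +
          280 * L ^ 3 * (Real.exp (2 * l ^ 6) * R / T) * ∑ k ∈ Finset.range K₀, Real.exp (k : ℝ)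
        ≤ L * (28 * L ^ 3 * Q + 2 * L ^ 3 * R / T) +
          280 * L ^ 3 * (Real.exp (2 * l ^ 6) * R / T) * (T * Real.exp (-(3 * l ^ 6))) := by
          gcongr
      _ = 28 * L ^ 4 * Q + 2 * L ^ 3 * R * (L / T) +
          280 * L ^ 3 * R * (Real.exp (2 * l ^ 6) * Real.exp (-(3 * l ^ 6))) := by
          field_simp
      _ ≤ 28 * L ^ 4 * Q + 2 * L ^ 3 * R * 1 + 280 * L ^ 3 * R * 1 := by gcongr
      _ = _ := by ring
  have hS2 : ∑ k ∈ Finset.Ico K₀ K₁, b k ≤ 2500 * L ^ 3 * l ^ 10 * R := by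
    refine (Finset.sum_le_sum hB).trans ?_
    rw [Finset.sum_const, Nat.card_Ico, nsmul_eq_mul]
    have h1 : ((K₁ - K₀ : ℕ) : ℝ) ≤ 5 * l ^ 10 := by
      rw [Nat.cast_sub hK01, hK1]
      linarith
    calc ((K₁ - K₀ : ℕ) : ℝ) * (500 * L ^ 3 * R) ≤ 5 * l ^ 10 * (500 * L ^ 3 * R) := by gcongr
      _ = _ := by ring
  have hS3 : ∑' i : ℕ, ENNReal.ofReal (b (i + K₁)) ≤ ENNReal.ofReal (90000 * L ^ 3 * R) := by
    have hsum : Summable fun i : ℕ => 30000 * L ^ 3 * R * r ^ i :=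
      (summable_geometric_of_lt_one hr0.le (by linarith)).mul_left _
    refine (ENNReal.tsum_le_tsum fun i => ENNReal.ofReal_le_ofReal (hC i)).trans ?_
    rw [← ENNReal.ofReal_tsum_of_nonneg (fun i => by positivity) hsum]
    refine ENNReal.ofReal_le_ofReal ?_
    rw [tsum_mul_left, tsum_geometric_of_lt_one hr0.le (by linarith)]
    have h1 : (1 - r)⁻¹ ≤ 3 := by
      rw [inv_le_comm₀ (by linarith) (by norm_num)]
      linarith
    calc 30000 * L ^ 3 * R * (1 - r)⁻¹ ≤ 30000 * L ^ 3 * R * 3 := by gcongr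
      _ = _ := by ring
  have hfin : ∑' k : ℕ, ENNReal.ofReal (b k) ≤
      ENNReal.ofReal (28 * L ^ 4 * Q + 282 * L ^ 3 * R + 2500 * L ^ 3 * l ^ 10 * R) +
        ENNReal.ofReal (90000 * L ^ 3 * R) := by
    rw [← (ENNReal.summable (f := fun i : ℕ => ENNReal.ofReal (b (i + K₁)))).sum_add_tsum_nat_add'
      (f := fun i : ℕ => ENNReal.ofReal (b i))]
    refine add_le_add ?_ hS3
    rw [← ENNReal.ofReal_sum_of_nonneg (fun k _ => hb0 k)]
    refine ENNReal.ofReal_le_ofReal ?_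
    rw [← Finset.sum_range_add_sum_Ico _ hK01]
    linarith
  have hgoal : ∑' k : ℕ, ENNReal.ofReal (140 * wt T (k + 1) * (E k * Real.exp k / T) +
      R * Real.exp (-k) * wt T (k + 1) / T) = ∑' k : ℕ, ENNReal.ofReal (b k) := by
    rw [hb]
  rw [hgoal]
  refine hfin.trans ?_
  rw [← ENNReal.ofReal_add (by positivity) (by positivity)]
  refine ENNReal.ofReal_le_ofReal ?_
  have h1 : L ^ 3 * R ≤ L ^ 3 * l ^ 10 * R := by
    have : L ^ 3 * R * 1 ≤ L ^ 3 * R * l ^ 10 := mul_le_mul_of_nonneg_left hl10 (by positivity)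
    linarith
  have h2 : 0 ≤ L ^ 4 * Q := by positivity
  have h3 : 0 ≤ L ^ 3 * l ^ 10 * R := by positivity
  nlinarith

/-- **ZPOS.** -/
theorem zpos : ZPOSStatement := by
  have hlog : Tendsto Real.log atTop atTop := Real.tendsto_log_atTop
  have hll : Tendsto (fun T : ℝ => Real.log (Real.log T)) atTop atTop := hlog.comp hlog
  have e1 : ∀ᶠ x : ℝ in atTop, 3 * x ^ 6 ≤ Real.exp x := by
    have h := (Real.isLittleO_pow_exp_atTop (n := 7)).bound (c := 1) one_pos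
    filter_upwards [h, eventually_ge_atTop 3] with x hx h0
    rw [one_mul, Real.norm_of_nonneg (by positivity), Real.norm_of_nonneg (Real.exp_pos _).le] at hx
    refine le_trans ?_ hx
    calc 3 * x ^ 6 ≤ x * x ^ 6 := mul_le_mul_of_nonneg_right h0 (by positivity)
      _ = x ^ 7 := by ring
  obtain ⟨T₁, h1⟩ := eventually_atTop.1 (((hll.eventually e1).and
    (hll.eventually_ge_atTop 1)).and (hlog.eventually_ge_atTop 3))
  refine ⟨120000, max T₁ 11, by norm_num, ?_, fun T S a hT hS => ?_⟩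
  · exact lt_of_lt_of_le (by norm_num) (le_max_right _ _)
  have hT11 : 11 ≤ T := (le_max_right _ _).trans hT
  have hT10 : 10 < T := by linarith
  obtain ⟨⟨k1, k2⟩, k3⟩ := h1 T ((le_max_left _ _).trans hT)
  have hL0 : 0 < Real.log T := Real.log_pos (by linarith)
  rw [Real.exp_log hL0] at k1
  obtain ⟨l, hl⟩ : ∃ l : ℝ, l = Real.log (Real.log T) := ⟨_, rfl⟩
  obtain ⟨L, hL⟩ : ∃ L : ℝ, L = Real.log T := ⟨_, rfl⟩
  rw [← hl] at k1 k2 hS ⊢
  rw [← hL] at k1 k3 ⊢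
  have hS1 : ∀ m ∈ S, 1 ≤ m := fun m hm => (hS m hm).1
  obtain ⟨hQ, hQR⟩ := H94N.qfn S a hS1
  have hR : 0 ≤ Rf S a := hQ.trans hQR
  obtain ⟨K₀, hK₀⟩ : ∃ K₀ : ℕ, K₀ = ⌊L - 3 * l ^ 6⌋₊ := ⟨_, rfl⟩
  obtain ⟨K₁, hK₁⟩ : ∃ K₁ : ℕ, K₁ = K₀ + (⌈3 * l ^ 6⌉₊ + 1) := ⟨_, rfl⟩
  obtain ⟨E, hE⟩ : ∃ E : ℕ → ℝ, ∀ k : ℕ, E k = if k < K₀ then
      Qf S a / (2 * (5 * Real.exp k / T)) + Real.exp (2 * l ^ 6) * Rf S a
      else Rf S a / (2 * (5 * Real.exp k / T)) * Real.exp (-(5 * Real.exp k / T)) :=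
    ⟨_, fun _ => rfl⟩
  have hTp : 0 < T := by linarith
  have hE0 : ∀ k, 0 ≤ E k := by
    intro k
    rw [hE k]
    split_ifs <;> positivity
  have hED : ∀ k : ℕ, DD S a (5 * Real.exp k / T) ≤ E k := by
    intro k
    have hx : 0 < 5 * Real.exp (k : ℝ) / T := by positivity
    rw [hE k]
    split_ifs
    · refine (DD_main hS1 a hx).trans (add_le_add le_rfl ?_)
      refine (sum_sq_le a (Real.exp_pos _).le hS).trans (le_of_eq ?_)
      rw [← Real.exp_nat_mul]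
      norm_num
    · exact DD_crude hS1 a hx
  refine (sum_blocks hS1 a hT10 E hED hE0).trans ?_
  refine (total_le hT10 hL k3 k2 k1 hQ hR K₀ K₁ hK₀ hK₁ E hE).trans ?_
  refine ENNReal.ofReal_le_ofReal ?_
  have h2 : 0 ≤ L ^ 4 * Qf S a + L ^ 3 * l ^ 10 * Rf S a := by positivity
  linarith

end Pool.Agent.Lib.MP_6bc78b_nt.GP.H94Z
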