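import Pool.Agent.Lib.MP_6bc78b_nt.GP.H11.Defs11

/-! Project GP11, module QFN: the form `∑ a(m) conj a(m') / [m, m']` is nonnegative. -/

set_option autoImplicit false

open Complex Filter Topology MeasureTheory ArithmeticFunction Set

namespace Pool.Agent.Lib.MP_6bc78b_nt.GP.H94N

open Pool.Agent.Lib.MP_6bc78b_nt.GP Pool.Agent.Lib.MP_6bc78b_nt.GP.G11

/-- `1/[m, m'] = ∑_{b | m, b | m'} φ(b)/(m m')`. -/
lemma inv_lcm {m m' N : ℕ} (hm : 1 ≤ m) (hm' : 1 ≤ m') (hN : m ≤ N) :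
    (1 : ℂ) / (Nat.lcm m m' : ℂ) = ∑ b ∈ Finset.Icc 1 N,
      if b ∣ m ∧ b ∣ m' then (Nat.totient b : ℂ) * (1 / (m : ℂ)) * (1 / (m' : ℂ)) else 0 := by
  have hg : 0 < Nat.gcd m m' := Nat.gcd_pos_of_pos_left _ hm
  have h1 : (∑ b ∈ (Nat.gcd m m').divisors, (Nat.totient b : ℂ)) = (Nat.gcd m m' : ℂ) := by
    rw [← Nat.cast_sum, Nat.sum_totient]
  have h2 : (Nat.gcd m m').divisors = (Finset.Icc 1 N).filter (fun b => b ∣ m ∧ b ∣ m') := by
    ext b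
    rw [Nat.mem_divisors, Finset.mem_filter, Finset.mem_Icc, Nat.dvd_gcd_iff]
    constructor
    · rintro ⟨⟨k1, k2⟩, -⟩
      exact ⟨⟨Nat.pos_of_dvd_of_pos k1 hm, (Nat.le_of_dvd hm k1).trans hN⟩, k1, k2⟩
    · rintro ⟨-, k1, k2⟩
      exact ⟨⟨k1, k2⟩, hg.ne'⟩
  rw [← Finset.sum_filter, ← h2]
  simp_rw [mul_assoc]
  rw [← Finset.sum_mul, h1]
  have h3 : (Nat.gcd m m' : ℂ) * (Nat.lcm m m' : ℂ) = (m : ℂ) * (m' : ℂ) := by
    exact_mod_cast Nat.gcd_mul_lcm m m'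
  have hm0 : (m : ℂ) ≠ 0 := by exact_mod_cast (by omega : m ≠ 0)
  have hm0' : (m' : ℂ) ≠ 0 := by exact_mod_cast (by omega : m' ≠ 0)
  have hl0 : (Nat.lcm m m' : ℂ) ≠ 0 := by
    exact_mod_cast Nat.lcm_ne_zero (by omega) (by omega)
  field_simp
  rw [← h3]
  ring

/-- The form is a sum of squares. -/
lemma form_eq {S : Finset ℕ} (a : ℕ → ℂ) (hS : ∀ m ∈ S, 1 ≤ m) :
    ∑ m ∈ S, ∑ m' ∈ S, a m * (starRingEnd ℂ) (a m') / (Nat.lcm m m' : ℂ) =
      ∑ b ∈ Finset.Icc 1 (S.sup id), (((Nat.totient b : ℝ) *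
        Complex.normSq (∑ m ∈ S, if b ∣ m then a m / (m : ℂ) else 0) : ℝ) : ℂ) := by
  have h1 : ∀ m ∈ S, ∀ m' ∈ S, a m * (starRingEnd ℂ) (a m') / (Nat.lcm m m' : ℂ) =
      ∑ b ∈ Finset.Icc 1 (S.sup id), (Nat.totient b : ℂ) *
        ((if b ∣ m then a m / (m : ℂ) else 0) *
          (starRingEnd ℂ) (if b ∣ m' then a m' / (m' : ℂ) else 0)) := by
    intro m hm m' hm'
    rw [div_eq_mul_one_div, inv_lcm (hS m hm) (hS m' hm') (Finset.le_sup (f := id) hm),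
      Finset.mul_sum]
    refine Finset.sum_congr rfl fun b _ => ?_
    by_cases k1 : b ∣ m <;> by_cases k2 : b ∣ m' <;> simp [k1, k2]
    ring
  rw [Finset.sum_congr rfl fun m hm => Finset.sum_congr rfl fun m' hm' => h1 m hm m' hm']
  rw [Finset.sum_congr rfl fun m _ => Finset.sum_comm]
  rw [Finset.sum_comm]
  refine Finset.sum_congr rfl fun b _ => ?_
  rw [Complex.ofReal_mul, Complex.ofReal_natCast, Complex.normSq_eq_conj_mul_self, map_sum,
    mul_comm ((∑ m ∈ S, (starRingEnd ℂ) (if b ∣ m then a m / (m : ℂ) else 0))),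
    Finset.sum_mul_sum, Finset.mul_sum]
  refine Finset.sum_congr rfl fun m _ => ?_
  rw [Finset.mul_sum]

/-- **QFN.** -/
theorem qfn : QFNStatement := by
  intro S a hS
  constructor
  · unfold Qf
    rw [form_eq a hS, ← Complex.ofReal_sum, Complex.ofReal_re]
    exact Finset.sum_nonneg fun b _ => mul_nonneg (Nat.cast_nonneg _) (Complex.normSq_nonneg _)
  · unfold Qf Rf
    refine (Complex.re_le_norm _).trans ((norm_sum_le _ _).trans ?_)
    refine Finset.sum_le_sum fun m _ => (norm_sum_le _ _).trans ?_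
    refine Finset.sum_le_sum fun m' _ => ?_
    rw [norm_div, norm_mul, RCLike.norm_conj, Complex.norm_natCast]

end Pool.Agent.Lib.MP_6bc78b_nt.GP.H94N
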