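import Pool.Agent.Lib.MP_6bc78b_nt.GP.H34.Tai7
import Pool.Agent.Lib.MP_6bc78b_nt.GP.H2.DefsZ

/-! Project GP11, row ZPOS, part 1: Parseval on vertical lines for the series
`∑ c(n) e^{-nz}`, `c(n) = ∑_{m | n} a(m)`. -/

set_option autoImplicit false

open Complex Filter Topology MeasureTheory ArithmeticFunction Set
open scoped ENNReal ComplexConjugate

namespace Pool.Agent.Lib.MP_6bc78b_nt.GP.H94Z

open Pool.Agent.Lib.MP_6bc78b_nt.GP Pool.Agent.Lib.MP_6bc78b_nt.GP.G11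
open Pool.Agent.Lib.MP_6bc78b_nt.GP.G11Z
open H76 H34T

/-- Parseval for a finite sum on whole periods, complex coefficients. -/
lemma parseval_c (s : Finset ℕ) (d : ℕ → ℂ) (y0 : ℝ) (M : ℕ) :
    ∫ y in y0..(y0 + 2 * Real.pi * M),
      ‖∑ n ∈ s, d n * Complex.exp (-(n * (y * I)))‖ ^ 2 =
      2 * Real.pi * M * ∑ n ∈ s, ‖d n‖ ^ 2 := by
  have h1 : ∀ y : ℝ, ((‖∑ n ∈ s, d n * Complex.exp (-(n * (y * I)))‖ ^ 2 : ℝ) : ℂ) =
      ∑ n ∈ s, ∑ m ∈ s, (d n * conj (d m)) *
        Complex.exp ((((m : ℤ) - (n : ℤ) : ℤ) * I : ℂ) * y) := by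
    intro y
    push_cast
    rw [← Complex.mul_conj', map_sum, Finset.sum_mul_sum]
    refine Finset.sum_congr rfl fun n _ => Finset.sum_congr rfl fun m _ => ?_
    rw [map_mul, ← Complex.exp_conj, mul_mul_mul_comm, ← Complex.exp_add]
    congr 2
    simp only [map_neg, map_mul, Complex.conj_natCast, Complex.conj_ofReal, Complex.conj_I]
    ring
  have h2 : ((∫ y in y0..(y0 + 2 * Real.pi * M),
      ‖∑ n ∈ s, d n * Complex.exp (-(n * (y * I)))‖ ^ 2 : ℝ) : ℂ) =
      ((2 * Real.pi * M * ∑ n ∈ s, ‖d n‖ ^ 2 : ℝ) : ℂ) := by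
    rw [← intervalIntegral.integral_ofReal]
    simp only [h1]
    rw [intervalIntegral.integral_finsetSum]
    · push_cast
      rw [Finset.mul_sum]
      refine Finset.sum_congr rfl fun n hn => ?_
      rw [intervalIntegral.integral_finsetSum]
      · rw [Finset.sum_eq_single n]
        · rw [intervalIntegral.integral_const_mul]
          simp only [sub_self, zero_mul, Complex.exp_zero]
          rw [intervalIntegral.integral_const, Complex.mul_conj']
          simp only [add_sub_cancel_left, Complex.real_smul]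
          push_cast
          ring
        · intro m _ hm
          have e0 : ((m : ℂ) - (n : ℂ)) = (((m : ℤ) - (n : ℤ) : ℤ) : ℂ) := by push_cast; rfl
          have e1 : ((m : ℤ) - (n : ℤ) : ℤ) ≠ 0 := by
            intro h
            apply hm
            omega
          rw [intervalIntegral.integral_const_mul, e0, int_exp e1, mul_zero]
        · intro h
          exact absurd hn h
      · intro m _
        exact Continuous.intervalIntegrable (by fun_prop) _ _
    · intro n _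
      exact Continuous.intervalIntegrable (by fun_prop) _ _
  exact_mod_cast h2

/-- The finite sums in mean square on an interval. -/
lemma fin_c (s : Finset ℕ) (d : ℕ → ℂ) (y0 y1 : ℝ) (hy : y0 ≤ y1) :
    ∫⁻ y in Icc y0 y1, ENNReal.ofReal
      (‖∑ n ∈ s, d n * Complex.exp (-(n * (y * I)))‖ ^ 2) ≤
      ENNReal.ofReal ((y1 - y0 + 2 * Real.pi) * ∑ n ∈ s, ‖d n‖ ^ 2) := by
  have hpi := Real.pi_pos
  set M : ℕ := ⌈(y1 - y0) / (2 * Real.pi)⌉₊ with hM
  have hM1 : y1 ≤ y0 + 2 * Real.pi * M := by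
    have h := Nat.le_ceil ((y1 - y0) / (2 * Real.pi))
    rw [div_le_iff₀ (by positivity)] at h
    rw [hM]
    linarith
  have hM2 : 2 * Real.pi * M ≤ y1 - y0 + 2 * Real.pi := by
    have h := Nat.ceil_lt_add_one (div_nonneg (sub_nonneg.2 hy) (by positivity : 0 ≤ 2 * Real.pi))
    have h2 : (M : ℝ) * (2 * Real.pi) ≤ ((y1 - y0) / (2 * Real.pi) + 1) * (2 * Real.pi) :=
      mul_le_mul_of_nonneg_right h.le (by positivity)
    rw [add_mul, div_mul_cancel₀ _ (by positivity)] at h2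
    linarith
  have hcont : Continuous fun y : ℝ =>
      ‖∑ n ∈ s, d n * Complex.exp (-(n * (y * I)))‖ ^ 2 := by fun_prop
  calc ∫⁻ y in Icc y0 y1, ENNReal.ofReal
        (‖∑ n ∈ s, d n * Complex.exp (-(n * (y * I)))‖ ^ 2)
      ≤ ∫⁻ y in Icc y0 (y0 + 2 * Real.pi * M), ENNReal.ofReal
        (‖∑ n ∈ s, d n * Complex.exp (-(n * (y * I)))‖ ^ 2) :=
        lintegral_mono_set (Icc_subset_Icc_right hM1)
    _ = ENNReal.ofReal (∫ y in Icc y0 (y0 + 2 * Real.pi * M),
        ‖∑ n ∈ s, d n * Complex.exp (-(n * (y * I)))‖ ^ 2) := by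
        rw [ofReal_integral_eq_lintegral_ofReal]
        · exact hcont.continuousOn.integrableOn_Icc
        · exact Filter.Eventually.of_forall fun y => by positivity
    _ = ENNReal.ofReal (2 * Real.pi * M * ∑ n ∈ s, ‖d n‖ ^ 2) := by
        rw [integral_Icc_eq_integral_Ioc, ← intervalIntegral.integral_of_le (hy.trans hM1),
          parseval_c]
    _ ≤ _ := ENNReal.ofReal_le_ofReal
        (mul_le_mul_of_nonneg_right hM2 (Finset.sum_nonneg fun n _ => sq_nonneg _))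

/-- The series in mean square on an interval. -/
lemma ser_c (α : ℕ → ℂ) (x K : ℝ) (f : ℝ → ℂ)
    (hs : ∀ y : ℝ, HasSum (fun n : ℕ => α n * Complex.exp (-(n * (x + y * I)))) (f y))
    (hK : ∀ N : ℕ, ∑ n ∈ Finset.range N, (‖α n‖ * Real.exp (-(n * x))) ^ 2 ≤ K)
    (y0 y1 : ℝ) (hy : y0 ≤ y1) :
    ∫⁻ y in Icc y0 y1, ENNReal.ofReal (‖f y‖ ^ 2) ≤
      ENNReal.ofReal ((y1 - y0 + 2 * Real.pi) * K) := by
  have hpi := Real.pi_pos
  have h1 : ∀ (N : ℕ) (y : ℝ), ∑ n ∈ Finset.range N,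
      α n * Complex.exp (-(n * (x + y * I))) =
      ∑ n ∈ Finset.range N, (α n * ((Real.exp (-(n * x)) : ℝ) : ℂ)) *
        Complex.exp (-(n * (y * I))) := by
    intro N y
    refine Finset.sum_congr rfl fun n _ => ?_
    push_cast
    rw [mul_assoc, ← Complex.exp_add]
    congr 2
    ring
  have h2 : ∀ y : ℝ, ENNReal.ofReal (‖f y‖ ^ 2) =
      liminf (fun N : ℕ => ENNReal.ofReal (‖∑ n ∈ Finset.range N,
        (α n * ((Real.exp (-(n * x)) : ℝ) : ℂ)) * Complex.exp (-(n * (y * I)))‖ ^ 2)) atTop := by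
    intro y
    refine (Filter.Tendsto.liminf_eq ?_).symm
    refine ENNReal.tendsto_ofReal ?_
    refine Filter.Tendsto.pow (Filter.Tendsto.norm ?_) 2
    simp only [← h1]
    exact (hs y).tendsto_sum_nat
  simp only [h2]
  refine (lintegral_liminf_le fun N => ?_).trans ?_
  · refine Measurable.ennreal_ofReal (Continuous.measurable ?_)
    fun_prop
  · refine (Filter.liminf_le_liminf (v := fun _ => ENNReal.ofReal ((y1 - y0 + 2 * Real.pi) * K))
      (Filter.Eventually.of_forall fun N => ?_)).trans ?_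
    · refine (fin_c _ _ y0 y1 hy).trans (ENNReal.ofReal_le_ofReal ?_)
      refine mul_le_mul_of_nonneg_left ?_ (by linarith)
      refine le_trans (le_of_eq ?_) (hK N)
      refine Finset.sum_congr rfl fun n _ => ?_
      rw [norm_mul, Complex.norm_real, Real.norm_of_nonneg (Real.exp_pos _).le]
    · rw [Filter.liminf_const]

/-- `G(z) = ∑ a(m) / (e^{mz} - 1)`. -/
noncomputable def GZ (S : Finset ℕ) (a : ℕ → ℂ) (z : ℂ) : ℂ :=
  ∑ m ∈ S, a m * (1 / (Complex.exp (m * z) - 1))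

/-- `c(n) = ∑_{m | n} a(m)` for `1 ≤ n`. -/
noncomputable def cn (S : Finset ℕ) (a : ℕ → ℂ) (n : ℕ) : ℂ :=
  ∑ m ∈ S, if n ≠ 0 ∧ m ∣ n then a m else 0

/-- `1/(e^{mz} - 1) = ∑_{n ≥ 1, m | n} e^{-nz}`. -/
lemma hasSum_one {m : ℕ} (hm : 1 ≤ m) {z : ℂ} (hz : 0 < z.re) :
    HasSum (fun n : ℕ => (if n ≠ 0 ∧ m ∣ n then (1 : ℂ) else 0) * Complex.exp (-(n * z)))
      (1 / (Complex.exp (m * z) - 1)) := by
  have hm0 : (0 : ℝ) < m := by exact_mod_cast hm
  have hre : ((m : ℂ) * z).re = m * z.re := by simp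
  have hr : ‖Complex.exp (-(m * z))‖ < 1 := by
    rw [Complex.norm_exp, Complex.neg_re, hre, Real.exp_lt_one_iff]
    have := mul_pos hm0 hz
    linarith
  have h1 : HasSum (fun k : ℕ => Complex.exp (-(m * z)) * Complex.exp (-(m * z)) ^ k)
      (Complex.exp (-(m * z)) * (1 - Complex.exp (-(m * z)))⁻¹) :=
    (hasSum_geometric_of_norm_lt_one hr).mul_left _
  have e1 : Complex.exp (-(m * z)) * (1 - Complex.exp (-(m * z)))⁻¹ =
      1 / (Complex.exp (m * z) - 1) := by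
    have k1 : Complex.exp (m * z) ≠ 0 := Complex.exp_ne_zero _
    have k2 : Complex.exp (m * z) - 1 ≠ 0 := by
      intro h
      have h3 : Complex.exp (m * z) = 1 := by linear_combination h
      rw [Complex.exp_neg, h3] at hr
      simp at hr
    have k3 : 1 - (Complex.exp (m * z))⁻¹ ≠ 0 := by
      intro h
      apply k2
      have k4 : Complex.exp (m * z) - 1 = Complex.exp (m * z) * (1 - (Complex.exp (m * z))⁻¹) := by
        field_simp
      rw [k4, h, mul_zero]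
    rw [Complex.exp_neg]
    field_simp
  rw [e1] at h1
  have hinj : Function.Injective (fun k : ℕ => m * (k + 1)) := fun a b h => by
    have := Nat.eq_of_mul_eq_mul_left hm h
    omega
  refine (hinj.hasSum_iff ?_).1 ?_
  · intro n hn
    have h2 : ¬ (n ≠ 0 ∧ m ∣ n) := by
      rintro ⟨k1, k, hk⟩
      refine hn ⟨k - 1, ?_⟩
      have : k ≠ 0 := by
        rintro rfl
        simp at hk
        exact k1 hk
      show m * (k - 1 + 1) = n
      rw [hk, Nat.sub_add_cancel (by omega)]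
    rw [if_neg h2, zero_mul]
  · convert h1 using 1
    funext k
    simp only [Function.comp]
    rw [if_pos ⟨by positivity, Dvd.intro _ rfl⟩, one_mul, ← pow_succ', ← Complex.exp_nat_mul]
    congr 1
    push_cast
    ring

lemma hasSum_GZ {S : Finset ℕ} (hS : ∀ m ∈ S, 1 ≤ m) (a : ℕ → ℂ) {z : ℂ} (hz : 0 < z.re) :
    HasSum (fun n : ℕ => cn S a n * Complex.exp (-(n * z))) (GZ S a z) := by
  have h1 : HasSum (fun n : ℕ => ∑ m ∈ S, a m *
      ((if n ≠ 0 ∧ m ∣ n then (1 : ℂ) else 0) * Complex.exp (-(n * z)))) (GZ S a z) :=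
    hasSum_sum fun m hm => (hasSum_one (hS m hm) hz).mul_left _
  convert h1 using 1
  funext n
  unfold cn
  rw [Finset.sum_mul]
  refine Finset.sum_congr rfl fun m _ => ?_
  split_ifs <;> simp

/-- `D(x) = ∑_{m, m'} a(m) conj a(m') / (e^{2x [m, m']} - 1)`. -/
noncomputable def DD (S : Finset ℕ) (a : ℕ → ℂ) (x : ℝ) : ℝ :=
  (∑ m ∈ S, ∑ m' ∈ S, a m * conj (a m') *
    (1 / (Complex.exp ((Nat.lcm m m' : ℕ) * ((2 * x : ℝ) : ℂ)) - 1))).re

lemma hasSum_sq {S : Finset ℕ} (hS : ∀ m ∈ S, 1 ≤ m) (a : ℕ → ℂ) {x : ℝ} (hx : 0 < x) :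
    HasSum (fun n : ℕ => (‖cn S a n‖ * Real.exp (-(n * x))) ^ 2) (DD S a x) := by
  have h1 : HasSum (fun n : ℕ => ∑ m ∈ S, ∑ m' ∈ S, a m * conj (a m') *
      ((if n ≠ 0 ∧ Nat.lcm m m' ∣ n then (1 : ℂ) else 0) *
        Complex.exp (-(n * ((2 * x : ℝ) : ℂ)))))
      (∑ m ∈ S, ∑ m' ∈ S, a m * conj (a m') *
        (1 / (Complex.exp ((Nat.lcm m m' : ℕ) * ((2 * x : ℝ) : ℂ)) - 1))) := by
    refine hasSum_sum fun m hm => hasSum_sum fun m' hm' => ?_
    refine (hasSum_one (Nat.lcm_pos (hS m hm) (hS m' hm')) ?_).mul_left _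
    rw [Complex.ofReal_re]
    linarith
  have h2 := Complex.hasSum_re h1
  unfold DD
  convert h2 using 1
  funext n
  have e1 : (((‖cn S a n‖ * Real.exp (-(n * x))) ^ 2 : ℝ) : ℂ) =
      ∑ m ∈ S, ∑ m' ∈ S, a m * conj (a m') *
      ((if n ≠ 0 ∧ Nat.lcm m m' ∣ n then (1 : ℂ) else 0) *
        Complex.exp (-(n * ((2 * x : ℝ) : ℂ)))) := by
    have e2 : ((Real.exp (-(n * x)) ^ 2 : ℝ) : ℂ) = Complex.exp (-(n * ((2 * x : ℝ) : ℂ))) := by
      rw [← Real.exp_nat_mul, Complex.ofReal_exp]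
      congr 1
      push_cast
      ring
    rw [mul_pow, Complex.ofReal_mul, e2, Complex.ofReal_pow, ← Complex.mul_conj']
    unfold cn
    rw [map_sum, Finset.sum_mul_sum, Finset.sum_mul]
    refine Finset.sum_congr rfl fun m _ => ?_
    rw [Finset.sum_mul]
    refine Finset.sum_congr rfl fun m' _ => ?_
    by_cases ha : n ≠ 0 ∧ m ∣ n
    · by_cases hb : n ≠ 0 ∧ m' ∣ n
      · rw [if_pos ha, if_pos hb, if_pos ⟨ha.1, Nat.lcm_dvd ha.2 hb.2⟩, one_mul]
      · have hc : ¬ (n ≠ 0 ∧ Nat.lcm m m' ∣ n) :=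
          fun h => hb ⟨h.1, (Nat.dvd_lcm_right m m').trans h.2⟩
        rw [if_neg hb, if_neg hc, _root_.map_zero]
        ring
    · have hc : ¬ (n ≠ 0 ∧ Nat.lcm m m' ∣ n) :=
        fun h => ha ⟨h.1, (Nat.dvd_lcm_left m m').trans h.2⟩
      rw [if_neg ha, if_neg hc]
      ring
  rw [← e1, Complex.ofReal_re]

/-- The partial sums, at every `x ≥ x₁`. -/
lemma part_le {S : Finset ℕ} (hS : ∀ m ∈ S, 1 ≤ m) (a : ℕ → ℂ) {x₁ x : ℝ} (hx₁ : 0 < x₁)
    (hx : x₁ ≤ x) (N : ℕ) :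
    ∑ n ∈ Finset.range N, (‖cn S a n‖ * Real.exp (-(n * x))) ^ 2 ≤ DD S a x₁ := by
  refine le_trans (Finset.sum_le_sum fun n _ => ?_)
    (sum_le_hasSum (Finset.range N) (fun n _ => sq_nonneg _) (hasSum_sq hS a hx₁))
  refine pow_le_pow_left₀ (by positivity) ?_ 2
  refine mul_le_mul_of_nonneg_left (Real.exp_le_exp.2 ?_) (norm_nonneg _)
  have := mul_le_mul_of_nonneg_left hx (Nat.cast_nonneg n)
  linarith

/-- The exact main term. -/
lemma DD_main {S : Finset ℕ} (hS : ∀ m ∈ S, 1 ≤ m) (a : ℕ → ℂ) {x : ℝ} (hx : 0 < x) :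
    DD S a x ≤ Qf S a / (2 * x) + (∑ m ∈ S, ‖a m‖) ^ 2 := by
  have e1 : DD S a x - Qf S a / (2 * x) = (∑ m ∈ S, ∑ m' ∈ S, a m * conj (a m') *
      ((1 / (Real.exp (2 * x * Nat.lcm m m') - 1) - 1 / (2 * x * Nat.lcm m m') : ℝ) : ℂ)).re := by
    have e2 : Qf S a / (2 * x) = (∑ m ∈ S, ∑ m' ∈ S, a m * conj (a m') *
        ((1 / (2 * x * Nat.lcm m m') : ℝ) : ℂ)).re := by
      unfold Qf
      rw [← Complex.div_ofReal_re]
      congr 1
      rw [Finset.sum_div]
      refine Finset.sum_congr rfl fun m hm => ?_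
      rw [Finset.sum_div]
      refine Finset.sum_congr rfl fun m' hm' => ?_
      have hl : (Nat.lcm m m' : ℂ) ≠ 0 := by
        have h1 := hS m hm
        have h2 := hS m' hm'
        exact_mod_cast Nat.lcm_ne_zero (by omega) (by omega)
      have hxc : (x : ℂ) ≠ 0 := by exact_mod_cast hx.ne'
      push_cast
      field_simp
    rw [e2]
    unfold DD
    rw [← Complex.sub_re, ← Finset.sum_sub_distrib]
    congr 1
    refine Finset.sum_congr rfl fun m _ => ?_
    rw [← Finset.sum_sub_distrib]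
    refine Finset.sum_congr rfl fun m' _ => ?_
    rw [← mul_sub]
    congr 1
    have e3 : ((Nat.lcm m m' : ℕ) : ℂ) * ((2 * x : ℝ) : ℂ) = ((2 * x * Nat.lcm m m' : ℝ) : ℂ) := by
      push_cast
      ring
    rw [e3]
    push_cast
    ring
  have e4 : DD S a x - Qf S a / (2 * x) ≤ (∑ m ∈ S, ‖a m‖) ^ 2 := by
    rw [e1]
    refine (Complex.re_le_norm _).trans ((norm_sum_le _ _).trans ?_)
    rw [sq, Finset.sum_mul_sum]
    refine Finset.sum_le_sum fun m hm => (norm_sum_le _ _).trans ?_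
    refine Finset.sum_le_sum fun m' hm' => ?_
    rw [norm_mul, norm_mul, RCLike.norm_conj, Complex.norm_real, Real.norm_eq_abs]
    refine mul_le_of_le_one_right (by positivity) ?_
    have hl : (0 : ℝ) < Nat.lcm m m' := by
      exact_mod_cast Nat.lcm_pos (hS m hm) (hS m' hm')
    obtain ⟨y, hy⟩ : ∃ y : ℝ, y = 2 * x * Nat.lcm m m' := ⟨_, rfl⟩
    have hy0 : 0 < y := by rw [hy]; positivity
    rw [← hy]
    have k1 : y ≤ Real.exp y - 1 := by linarith [Real.add_one_le_exp y]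
    have k2 : 1 / (Real.exp y - 1) ≤ 1 / y := one_div_le_one_div_of_le hy0 k1
    have k3 : 0 < Real.exp y - 1 := by linarith
    rw [abs_le]
    constructor
    · have k4 : 1 - y ≤ Real.exp (-y) := Real.one_sub_le_exp_neg y
      have k5 : Real.exp y * (1 - y) ≤ 1 := by
        calc Real.exp y * (1 - y) ≤ Real.exp y * Real.exp (-y) :=
              mul_le_mul_of_nonneg_left k4 (Real.exp_pos y).le
          _ = 1 := by rw [← Real.exp_add]; simp
      have k6 : 1 / y ≤ 1 / (Real.exp y - 1) + 1 := by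
        rw [div_add_one k3.ne', div_le_div_iff₀ hy0 k3]
        nlinarith
      linarith
    · linarith
  linarith

/-- The crude bound, with decay. -/
lemma DD_crude {S : Finset ℕ} (hS : ∀ m ∈ S, 1 ≤ m) (a : ℕ → ℂ) {x : ℝ} (hx : 0 < x) :
    DD S a x ≤ Rf S a / (2 * x) * Real.exp (-x) := by
  unfold DD Rf
  refine (Complex.re_le_norm _).trans ((norm_sum_le _ _).trans ?_)
  rw [Finset.sum_div, Finset.sum_mul]
  refine Finset.sum_le_sum fun m hm => (norm_sum_le _ _).trans ?_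
  rw [Finset.sum_div, Finset.sum_mul]
  refine Finset.sum_le_sum fun m' hm' => ?_
  have hl1 : (1 : ℝ) ≤ Nat.lcm m m' := by
    exact_mod_cast Nat.lcm_pos (hS m hm) (hS m' hm')
  have hl : (0 : ℝ) < Nat.lcm m m' := by linarith
  have e3 : ((Nat.lcm m m' : ℕ) : ℂ) * ((2 * x : ℝ) : ℂ) = ((2 * x * Nat.lcm m m' : ℝ) : ℂ) := by
    push_cast
    ring
  obtain ⟨y, hy⟩ : ∃ y : ℝ, y = 2 * x * Nat.lcm m m' := ⟨_, rfl⟩
  have hy0 : 0 < y := by rw [hy]; positivity
  have hyx : x ≤ y / 2 := by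
    rw [hy]
    have := mul_le_mul_of_nonneg_left hl1 hx.le
    linarith
  rw [e3, ← hy, norm_mul, norm_mul, RCLike.norm_conj]
  have e4 : (1 / (Complex.exp (y : ℂ) - 1)) = ((1 / (Real.exp y - 1) : ℝ) : ℂ) := by
    push_cast
    rfl
  have k1 : y ≤ Real.exp y - 1 := by linarith [Real.add_one_le_exp y]
  have k3 : 0 < Real.exp y - 1 := by linarith
  rw [e4, Complex.norm_real, Real.norm_of_nonneg (by positivity)]
  have k4 : 1 / (Real.exp y - 1) ≤ 1 / y * Real.exp (-x) := by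
    have k5 : y / 2 ≤ Real.sinh (y / 2) := Real.self_le_sinh_iff.2 (by linarith)
    rw [Real.sinh_eq] at k5
    have k6 : y ≤ Real.exp (y / 2) - Real.exp (-(y / 2)) := by linarith
    have k7 : y * Real.exp (y / 2) ≤ Real.exp y - 1 := by
      calc y * Real.exp (y / 2) ≤ (Real.exp (y / 2) - Real.exp (-(y / 2))) * Real.exp (y / 2) :=
            mul_le_mul_of_nonneg_right k6 (Real.exp_pos _).le
        _ = Real.exp y - 1 := by
            rw [sub_mul, ← Real.exp_add, ← Real.exp_add]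
            simp
    have k8 : y * Real.exp x ≤ Real.exp y - 1 :=
      (mul_le_mul_of_nonneg_left (Real.exp_le_exp.2 hyx) hy0.le).trans k7
    rw [Real.exp_neg, ← one_div, div_mul_div_comm, one_mul]
    exact one_div_le_one_div_of_le (by positivity) k8
  calc ‖a m‖ * ‖a m'‖ * (1 / (Real.exp y - 1)) ≤ ‖a m‖ * ‖a m'‖ * (1 / y * Real.exp (-x)) :=
        mul_le_mul_of_nonneg_left k4 (by positivity)
    _ = _ := by
        rw [hy]
        field_simp

end Pool.Agent.Lib.MP_6bc78b_nt.GP.H94Z
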