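import Pool.Agent.Lib.MP_6bc78b_nt.GP.H94.ZposA
import Pool.Agent.Lib.MP_6bc78b_nt.GP.H94.Qfn

/-! Project GP11, row ZPOS, part 2: one unit block of frequencies. -/

set_option autoImplicit false

open Complex Filter Topology MeasureTheory ArithmeticFunction Set
open scoped ENNReal ComplexConjugate

namespace Pool.Agent.Lib.MP_6bc78b_nt.GP.H94Z

open Pool.Agent.Lib.MP_6bc78b_nt.GP Pool.Agent.Lib.MP_6bc78b_nt.GP.G11
open Pool.Agent.Lib.MP_6bc78b_nt.GP.G11Z
open H76 H34T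

/-- `|G|²`. -/
noncomputable def gz (S : Finset ℕ) (a : ℕ → ℂ) (z : ℂ) : ℝ≥0∞ := ENNReal.ofReal (‖GZ S a z‖ ^ 2)

theorem measurable_GZ (S : Finset ℕ) (a : ℕ → ℂ) : Measurable (GZ S a) := by
  unfold GZ
  refine Finset.measurable_fun_sum _ fun m _ => ?_
  refine Measurable.const_mul ?_ _
  refine Measurable.div measurable_const ?_
  fun_prop

theorem measurable_gz (S : Finset ℕ) (a : ℕ → ℂ) : Measurable (gz S a) := by
  unfold gz
  exact ((measurable_GZ S a).norm.pow_const 2).ennreal_ofReal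

/-- The integral over a rectangle. -/
lemma rcz_le {S : Finset ℕ} (hS : ∀ m ∈ S, 1 ≤ m) (a : ℕ → ℂ) {T E : ℝ} (hT : 10 ≤ T) (k : ℤ)
    (hE : DD S a (5 * Real.exp k / T) ≤ E) (hE0 : 0 ≤ E) :
    ∫⁻ z in RC k T, gz S a z ≤
      ENNReal.ofReal (30 * Real.exp k / T * ((2 * Real.pi * Real.exp (k + 1) + 4 * Real.pi) *
        E)) := by
  have hTp : 0 < T := by linarith
  have hpi := Real.pi_pos
  have hek : 0 < Real.exp (k : ℝ) := Real.exp_pos _
  have hx1p : 0 < 5 * Real.exp k / T := by positivity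
  unfold RC
  rw [iter_eq2 _ (measurable_gz S a)]
  have hin : ∀ x ∈ Icc (5 * Real.exp k / T) (35 * Real.exp k / T),
      ∫⁻ y in Icc (-(2 * Real.pi)) (2 * Real.pi * Real.exp (k + 1)), gz S a (⟨x, y⟩ : ℂ) ≤
      ENNReal.ofReal ((2 * Real.pi * Real.exp (k + 1) + 4 * Real.pi) * E) := by
    intro x hx
    have hxp : 0 < x := lt_of_lt_of_le hx1p hx.1
    have hre : ∀ y : ℝ, 0 < ((x : ℂ) + y * I).re := by
      intro y
      simpa using hxp
    have e1 : ∀ y : ℝ, gz S a (⟨x, y⟩ : ℂ) = ENNReal.ofReal (‖GZ S a (x + y * I)‖ ^ 2) := by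
      intro y
      have e2 : (⟨x, y⟩ : ℂ) = x + y * I := by
        apply Complex.ext <;> simp
      unfold gz
      rw [e2]
    simp only [e1]
    have hs := ser_c (cn S a) x E (fun y : ℝ => GZ S a (x + y * I))
      (fun y => hasSum_GZ hS a (hre y))
      (fun N => (part_le hS a hx1p hx.1 N).trans hE)
      (-(2 * Real.pi)) (2 * Real.pi * Real.exp (k + 1)) (by
        have : 0 < 2 * Real.pi * Real.exp ((k : ℝ) + 1) := by positivity
        linarith)
    refine hs.trans (le_of_eq ?_)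
    congr 1
    ring
  refine (setLIntegral_mono' measurableSet_Icc hin).trans ?_
  rw [setLIntegral_const, Real.volume_Icc, mul_comm, ← ENNReal.ofReal_mul]
  · refine ENNReal.ofReal_le_ofReal (le_of_eq ?_)
    ring
  · have e : 35 * Real.exp (k : ℝ) / T - 5 * Real.exp k / T = 30 * (Real.exp k / T) := by ring
    rw [e]
    positivity

/-- `e^{-2k}` times the integral over the image. -/
lemma boxz_le {S : Finset ℕ} (hS : ∀ m ∈ S, 1 ≤ m) (a : ℕ → ℂ) {T E : ℝ} (hT : 10 ≤ T) (k : ℤ)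
    (hE : DD S a (5 * Real.exp k / T) ≤ E) (hE0 : 0 ≤ E) :
    ∫⁻ w in BX k T, gz S a (ph w) ≤
      ENNReal.ofReal (1 / (4 * Real.pi ^ 2 * Real.exp (2 * k))) *
        ENNReal.ofReal (30 * Real.exp k / T * ((2 * Real.pi * Real.exp (k + 1) + 4 * Real.pi) *
        E)) := by
  have hpi := Real.pi_pos
  have e2 : ∫⁻ z in ph '' (BX k T), gz S a z =
      ∫⁻ w in BX k T, ENNReal.ofReal |(dph w).det| * gz S a (ph w) :=
    lintegral_image_eq_lintegral_abs_det_fderiv_mul volume (measurableSet_BX k T)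
      (fun w _ => (hasFDerivAt_ph w).hasFDerivWithinAt) (injOn_BX hT k) _
  have h3 : ∫⁻ z in ph '' (BX k T), gz S a z ≤ _ :=
    (lintegral_mono_set (image_BX hT k)).trans (rcz_le hS a hT k hE hE0)
  refine le_trans ?_ (mul_le_mul' le_rfl h3)
  rw [e2, ← lintegral_const_mul]
  · refine setLIntegral_mono' (measurableSet_BX k T) fun w hw => ?_
    rw [← mul_assoc, ← ENNReal.ofReal_mul (by positivity), det_dph]
    have h4 : 1 ≤ 1 / (4 * Real.pi ^ 2 * Real.exp (2 * k)) *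
        (4 * Real.pi ^ 2 * Real.exp (2 * w.re)) := by
      rw [one_div, inv_mul_eq_div, one_le_div (by positivity)]
      refine mul_le_mul_of_nonneg_left (Real.exp_le_exp.2 ?_) (by positivity)
      linarith [hw.1.1]
    calc gz S a (ph w) = ENNReal.ofReal 1 * gz S a (ph w) := by
          rw [ENNReal.ofReal_one, one_mul]
      _ ≤ _ := mul_le_mul' (ENNReal.ofReal_le_ofReal h4) le_rfl
  · refine Measurable.mul ?_ ((measurable_gz S a).comp measurable_ph)
    simp only [det_dph]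
    fun_prop

/-- The numbers of one block. -/
lemma numz_le {E : ℝ} (hE : 0 ≤ E) {T : ℝ} (hT : 0 < T) (k : ℕ) :
    Real.exp ((k : ℝ) + 1) * (1 / (4 * Real.pi ^ 2 * Real.exp (2 * k)) *
      (30 * Real.exp k / T * ((2 * Real.pi * Real.exp (k + 1) + 4 * Real.pi) * E))) ≤
      70 * (E * Real.exp k / T) := by
  have hpi := Real.pi_pos
  have hpi3 := Real.pi_gt_three
  have hek : 1 ≤ Real.exp (k : ℝ) := Real.one_le_exp (Nat.cast_nonneg k)
  have hek0 : 0 < Real.exp (k : ℝ) := Real.exp_pos _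
  have hy : 2 * Real.pi * Real.exp (k + 1) + 4 * Real.pi ≤ 10 * Real.pi * Real.exp k := by
    have h1 : Real.exp ((k : ℝ) + 1) ≤ 3 * Real.exp k := by
      rw [Real.exp_add, mul_comm]
      have := Real.exp_one_lt_d9
      exact mul_le_mul_of_nonneg_right (by linarith) hek0.le
    nlinarith
  have e2 : Real.exp (2 * (k : ℝ)) = Real.exp k * Real.exp k := by
    rw [← Real.exp_add]
    congr 1
    ring
  have e3 : Real.exp ((k : ℝ) + 1) = Real.exp k * Real.exp 1 := Real.exp_add _ _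
  calc Real.exp ((k : ℝ) + 1) * (1 / (4 * Real.pi ^ 2 * Real.exp (2 * k)) *
      (30 * Real.exp k / T * ((2 * Real.pi * Real.exp (k + 1) + 4 * Real.pi) * E)))
      ≤ Real.exp ((k : ℝ) + 1) * (1 / (4 * Real.pi ^ 2 * Real.exp (2 * k)) *
      (30 * Real.exp k / T * ((10 * Real.pi * Real.exp k) * E))) := by
        refine mul_le_mul_of_nonneg_left ?_ (Real.exp_pos _).le
        refine mul_le_mul_of_nonneg_left ?_ (by positivity)
        refine mul_le_mul_of_nonneg_left ?_ (by positivity)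
        exact mul_le_mul_of_nonneg_right hy hE
    _ = (75 * Real.exp 1 / Real.pi) * (E * Real.exp k / T) := by
        rw [e2, e3]
        field_simp
        ring
    _ ≤ 70 * (E * Real.exp k / T) := by
        refine mul_le_mul_of_nonneg_right ?_ (by positivity)
        rw [div_le_iff₀ hpi]
        have := Real.exp_one_lt_d9
        linarith

lemma meas_gzz (S : Finset ℕ) (a : ℕ → ℂ) :
    Measurable fun p : ℝ × ℝ => gz S a (zp p.2 p.1) :=
  (measurable_gz S a).comp H92.meas_zp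

/-- One unit block of positive frequencies. -/
lemma blockz_le {S : Finset ℕ} (hS : ∀ m ∈ S, 1 ≤ m) (a : ℕ → ℂ) {T E W : ℝ} (hT : 10 < T)
    (k : ℕ) (hE : DD S a (5 * Real.exp k / T) ≤ E) (hE0 : 0 ≤ E) (hW : 0 ≤ W) :
    ∫⁻ δ in Icc (1 / T) (2 / T), ∫⁻ v in Icc (k : ℝ) (k + 1), gz S a (zp v δ) *
      ENNReal.ofReal (Real.exp (k + 1) * W) ≤
      ENNReal.ofReal (70 * W * (E * Real.exp k / T)) := by
  have hm0 : Measurable fun w : ℂ => gz S a (ph w) := (measurable_gz S a).comp measurable_ph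
  have h2 : ∫⁻ δ in Icc (1 / T) (2 / T), ∫⁻ v in Icc (k : ℝ) (k + 1), gz S a (zp v δ) *
      ENNReal.ofReal (Real.exp (k + 1) * W) =
      ENNReal.ofReal (Real.exp ((k : ℝ) + 1) * W) * ∫⁻ w in BX (k : ℤ) T, gz S a (ph w) := by
    rw [← lintegral_const_mul _ hm0]
    have h3 := iter_eq (fun w : ℂ => ENNReal.ofReal (Real.exp ((k : ℝ) + 1) * W) *
        gz S a (ph w)) (hm0.const_mul _) (k : ℝ) (k + 1) (1 / T) (2 / T)
    have e : BX (k : ℤ) T = {w : ℂ | w.re ∈ Icc (k : ℝ) (k + 1) ∧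
        w.im ∈ Icc (1 / T) (2 / T)} := by
      unfold BX
      simp
    rw [e, ← h3]
    refine lintegral_congr fun δ => ?_
    refine lintegral_congr fun v => ?_
    rw [← zp_re_im, mul_comm]
  rw [h2]
  refine (mul_le_mul' le_rfl (boxz_le hS a hT.le (k : ℤ) (by simpa using hE) hE0)).trans ?_
  rw [← ENNReal.ofReal_mul (by positivity), ← ENNReal.ofReal_mul (by positivity)]
  refine ENNReal.ofReal_le_ofReal ?_
  have h4 := numz_le hE0 (by linarith : 0 < T) k
  have h5 := mul_le_mul_of_nonneg_left h4 hW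
  push_cast
  calc Real.exp ((k : ℝ) + 1) * W * (1 / (4 * Real.pi ^ 2 * Real.exp (2 * k)) *
      (30 * Real.exp k / T * ((2 * Real.pi * Real.exp (k + 1) + 4 * Real.pi) * E)))
      = W * (Real.exp ((k : ℝ) + 1) * (1 / (4 * Real.pi ^ 2 * Real.exp (2 * k)) *
      (30 * Real.exp k / T * ((2 * Real.pi * Real.exp (k + 1) + 4 * Real.pi) * E)))) := by ring
    _ ≤ W * (70 * (E * Real.exp k / T)) := h5
    _ = _ := by ring

/-- `∑ a(m)/m`. -/
noncomputable def A1 (S : Finset ℕ) (a : ℕ → ℂ) : ℂ := ∑ m ∈ S, a m / (m : ℂ)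

lemma A1_le {S : Finset ℕ} (hS : ∀ m ∈ S, 1 ≤ m) (a : ℕ → ℂ) : ‖A1 S a‖ ^ 2 ≤ Rf S a := by
  have h1 : ‖A1 S a‖ ≤ ∑ m ∈ S, ‖a m‖ / m := by
    unfold A1
    refine (norm_sum_le _ _).trans (Finset.sum_le_sum fun m _ => ?_)
    rw [norm_div, Complex.norm_natCast]
  refine (pow_le_pow_left₀ (norm_nonneg _) h1 2).trans ?_
  unfold Rf
  rw [sq, Finset.sum_mul_sum]
  refine Finset.sum_le_sum fun m hm => Finset.sum_le_sum fun m' hm' => ?_
  rw [div_mul_div_comm]
  have hl : 0 < Nat.lcm m m' := Nat.lcm_pos (hS m hm) (hS m' hm')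
  have hle : Nat.lcm m m' ≤ m * m' :=
    Nat.le_of_dvd (Nat.mul_pos (hS m hm) (hS m' hm')) (Nat.lcm_dvd_mul m m')
  refine div_le_div_of_nonneg_left (by positivity) (by exact_mod_cast hl) ?_
  exact_mod_cast hle

/-- The decomposition of `Φ`. -/
lemma Ph_eq {S : Finset ℕ} (a : ℕ → ℂ) (u δ : ℝ) :
    Ph S a (zr u δ) = GZ S a (zp u δ) - A1 S a / zr u δ := by
  have h0 : zr u δ = zp u δ + 2 * Real.pi * I := by
    unfold zr zp
    ring
  unfold Ph GZ A1 ph1
  rw [Finset.sum_div, ← Finset.sum_sub_distrib]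
  refine Finset.sum_congr rfl fun m _ => ?_
  have h1 : Complex.exp (m * zr u δ) = Complex.exp (m * zp u δ) := by
    have e1 : (m : ℂ) * zr u δ = m * zp u δ + ((m : ℤ) : ℂ) * (2 * Real.pi * I) := by
      rw [h0]
      push_cast
      ring
    rw [e1, Complex.exp_add, Complex.exp_int_mul_two_pi_mul_I, mul_one]
  rw [h1, mul_sub]
  congr 1
  rw [mul_one_div, div_div]

lemma norm_zr (u δ : ℝ) : ‖zr u δ‖ = 2 * Real.pi * Real.exp u := by
  unfold zr
  rw [norm_mul, norm_mul, norm_mul, Complex.norm_I, Complex.norm_exp]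
  have : ((u : ℂ) - δ * I).re = u := by simp
  rw [this, Complex.norm_real, Complex.norm_two, Real.norm_of_nonneg Real.pi_pos.le]
  ring

lemma Ph_sq {S : Finset ℕ} (hS : ∀ m ∈ S, 1 ≤ m) (a : ℕ → ℂ) (u δ : ℝ) :
    ‖Ph S a (zr u δ)‖ ^ 2 ≤ 2 * ‖GZ S a (zp u δ)‖ ^ 2 + Rf S a * Real.exp (-(2 * u)) := by
  rw [Ph_eq]
  have h1 : ‖GZ S a (zp u δ) - A1 S a / zr u δ‖ ≤ ‖GZ S a (zp u δ)‖ + ‖A1 S a / zr u δ‖ :=
    norm_sub_le _ _
  have h2 : ‖A1 S a / zr u δ‖ ^ 2 ≤ Rf S a * Real.exp (-(2 * u)) / 2 := by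
    rw [norm_div, norm_zr, div_pow]
    have h3 : (2 * Real.pi * Real.exp u) ^ 2 = 4 * Real.pi ^ 2 * Real.exp (2 * u) := by
      rw [mul_pow, mul_pow, ← Real.exp_nat_mul]
      push_cast
      ring
    have h4 : 2 ≤ 4 * Real.pi ^ 2 := by
      have := Real.pi_gt_three
      nlinarith
    have hR : 0 ≤ Rf S a := (sq_nonneg _).trans (A1_le hS a)
    rw [h3, div_le_iff₀ (by positivity)]
    have h5 : Real.exp (-(2 * u)) * Real.exp (2 * u) = 1 := by
      rw [← Real.exp_add]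
      simp
    calc ‖A1 S a‖ ^ 2 ≤ Rf S a := A1_le hS a
      _ ≤ Rf S a * (4 * Real.pi ^ 2 / 2) := le_mul_of_one_le_right hR (by linarith)
      _ = Rf S a / 2 * (4 * Real.pi ^ 2) * (Real.exp (-(2 * u)) * Real.exp (2 * u)) := by
          rw [h5]
          ring
      _ = _ := by ring
  have h6 : ‖GZ S a (zp u δ) - A1 S a / zr u δ‖ ^ 2 ≤
      (‖GZ S a (zp u δ)‖ + ‖A1 S a / zr u δ‖) ^ 2 := pow_le_pow_left₀ (norm_nonneg _) h1 2
  nlinarith [sq_nonneg (‖GZ S a (zp u δ)‖ - ‖A1 S a / zr u δ‖)]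

lemma wt_nonneg {T : ℝ} (hT : 10 < T) (u : ℝ) : 0 ≤ wt T u := by
  unfold wt
  have : 0 < Real.log T := Real.log_pos (by linarith)
  positivity

lemma wt_mono {T u v : ℝ} (hT : 10 < T) (hu : 0 ≤ u) (huv : u ≤ v) : wt T u ≤ wt T v := by
  unfold wt
  have : 0 < Real.log T := Real.log_pos (by linarith)
  gcongr

/-- One unit block for `Φ`. -/
lemma blockP_le {S : Finset ℕ} (hS : ∀ m ∈ S, 1 ≤ m) (a : ℕ → ℂ) {T E : ℝ} (hT : 10 < T)
    (k : ℕ) (hE : DD S a (5 * Real.exp k / T) ≤ E) (hE0 : 0 ≤ E) :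
    ∫⁻ δ in Icc (1 / T) (2 / T), ∫⁻ v in Icc (k : ℝ) (k + 1),
      ENNReal.ofReal (‖Ph S a (zr v δ)‖ ^ 2 * Real.exp v * wt T v) ≤
      ENNReal.ofReal (140 * wt T (k + 1) * (E * Real.exp k / T) +
        Rf S a * Real.exp (-k) * wt T (k + 1) / T) := by
  have hR : 0 ≤ Rf S a := (sq_nonneg _).trans (A1_le hS a)
  have hTp : 0 < T := by linarith
  have hW := wt_nonneg hT ((k : ℝ) + 1)
  have hp : ∀ δ : ℝ, ∀ v ∈ Icc (k : ℝ) (k + 1),
      ENNReal.ofReal (‖Ph S a (zr v δ)‖ ^ 2 * Real.exp v * wt T v) ≤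
      gz S a (zp v δ) * ENNReal.ofReal (Real.exp (k + 1) * (2 * wt T (k + 1))) +
        ENNReal.ofReal (Rf S a * Real.exp (-k) * wt T (k + 1)) := by
    intro δ v hv
    have hv0 : 0 ≤ v := (Nat.cast_nonneg k).trans hv.1
    have hwv := wt_mono hT hv0 hv.2
    have hwv0 := wt_nonneg hT v
    unfold gz
    rw [← ENNReal.ofReal_mul (by positivity), ← ENNReal.ofReal_add (by positivity) (by positivity)]
    refine ENNReal.ofReal_le_ofReal ?_
    have h1 := Ph_sq hS a v δ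
    have h2 : Real.exp v ≤ Real.exp (k + 1) := Real.exp_le_exp.2 hv.2
    have h3 : Real.exp (-(2 * v)) * Real.exp v ≤ Real.exp (-k) := by
      rw [← Real.exp_add]
      refine Real.exp_le_exp.2 ?_
      linarith [hv.1]
    calc ‖Ph S a (zr v δ)‖ ^ 2 * Real.exp v * wt T v
        ≤ (2 * ‖GZ S a (zp v δ)‖ ^ 2 + Rf S a * Real.exp (-(2 * v))) * Real.exp v * wt T v := by
          gcongr
      _ = ‖GZ S a (zp v δ)‖ ^ 2 * (Real.exp v * (2 * wt T v)) +
          Rf S a * (Real.exp (-(2 * v)) * Real.exp v) * wt T v := by ring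
      _ ≤ ‖GZ S a (zp v δ)‖ ^ 2 * (Real.exp (k + 1) * (2 * wt T (k + 1))) +
          Rf S a * Real.exp (-k) * wt T (k + 1) := by
          gcongr
  have h2 : ∀ δ : ℝ, ∫⁻ v in Icc (k : ℝ) (k + 1),
      ENNReal.ofReal (‖Ph S a (zr v δ)‖ ^ 2 * Real.exp v * wt T v) ≤
      (∫⁻ v in Icc (k : ℝ) (k + 1), gz S a (zp v δ) *
        ENNReal.ofReal (Real.exp (k + 1) * (2 * wt T (k + 1)))) +
        ENNReal.ofReal (Rf S a * Real.exp (-k) * wt T (k + 1)) := by
    intro δ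
    refine (setLIntegral_mono' measurableSet_Icc (hp δ)).trans (le_of_eq ?_)
    rw [lintegral_add_right _ measurable_const, setLIntegral_const, Real.volume_Icc]
    congr 1
    rw [add_sub_cancel_left, ENNReal.ofReal_one, mul_one]
  refine (lintegral_mono h2).trans ?_
  rw [lintegral_add_right _ measurable_const, setLIntegral_const, Real.volume_Icc]
  refine (add_le_add (blockz_le hS a hT k hE hE0 (by positivity : 0 ≤ 2 * wt T ((k : ℝ) + 1)))
    le_rfl).trans ?_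
  have e1 : 2 / T - 1 / T = 1 / T := by ring
  rw [e1, ← ENNReal.ofReal_mul (by positivity), ← ENNReal.ofReal_add (by positivity)
    (by positivity)]
  refine ENNReal.ofReal_le_ofReal (le_of_eq ?_)
  ring

lemma meas_P (S : Finset ℕ) (a : ℕ → ℂ) (T : ℝ) : Measurable fun p : ℝ × ℝ =>
    ENNReal.ofReal (‖Ph S a (zr p.2 p.1)‖ ^ 2 * Real.exp p.2 * wt T p.2) := by
  have h1 : Measurable fun p : ℝ × ℝ => zr p.2 p.1 := by
    refine Continuous.measurable ?_
    unfold zr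
    fun_prop
  have h2 : Measurable (Ph S a) := by
    unfold Ph ph1
    refine Finset.measurable_fun_sum _ fun m _ => ?_
    refine Measurable.const_mul ?_ _
    refine Measurable.sub (Measurable.div measurable_const ?_) (Measurable.div measurable_const ?_)
    · fun_prop
    · fun_prop
  refine Measurable.ennreal_ofReal (Measurable.mul (Measurable.mul ?_ ?_) ?_)
  · exact ((h2.comp h1).norm.pow_const 2)
  · fun_prop
  · unfold wt
    fun_prop

/-- All blocks. -/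
lemma sum_blocks {S : Finset ℕ} (hS : ∀ m ∈ S, 1 ≤ m) (a : ℕ → ℂ) {T : ℝ} (hT : 10 < T)
    (E : ℕ → ℝ) (hE : ∀ k : ℕ, DD S a (5 * Real.exp k / T) ≤ E k) (hE0 : ∀ k, 0 ≤ E k) :
    ∫⁻ δ in Icc (1 / T) (2 / T), ∫⁻ v in Ici (0 : ℝ),
      ENNReal.ofReal (‖Ph S a (zr v δ)‖ ^ 2 * Real.exp v * wt T v) ≤
      ∑' k : ℕ, ENNReal.ofReal (140 * wt T (k + 1) * (E k * Real.exp k / T) +
        Rf S a * Real.exp (-k) * wt T (k + 1) / T) := by
  have hcov : Ici (0 : ℝ) ⊆ ⋃ k : ℕ, Icc (k : ℝ) (k + 1) := by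
    intro v hv
    rw [mem_iUnion]
    exact ⟨⌊v⌋₊, Nat.floor_le hv, (Nat.lt_floor_add_one v).le⟩
  have h2 : ∀ δ : ℝ, ∫⁻ v in Ici (0 : ℝ),
      ENNReal.ofReal (‖Ph S a (zr v δ)‖ ^ 2 * Real.exp v * wt T v) ≤
      ∑' k : ℕ, ∫⁻ v in Icc (k : ℝ) (k + 1),
        ENNReal.ofReal (‖Ph S a (zr v δ)‖ ^ 2 * Real.exp v * wt T v) := fun δ =>
    (lintegral_mono_set hcov).trans (lintegral_iUnion_le _ _)
  refine (lintegral_mono h2).trans ?_
  rw [lintegral_tsum]
  · exact ENNReal.tsum_le_tsum fun k => blockP_le hS a hT k (hE k) (hE0 k)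
  · intro k
    exact (meas_P S a T).lintegral_prod_right'.aemeasurable

end Pool.Agent.Lib.MP_6bc78b_nt.GP.H94Z
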